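import Pool.Agent.TH508.ON.Final

set_option autoImplicit false
set_option linter.unusedSimpArgs false

/-! Exploration of the loops which leave a subset. -/

namespace TH508.ON

open H978R2.Hex H978R3.Wedge

/-- splitting a gas into two kinds of polymers -/
theorem gas_split {ι α : Type*} [DecidableEq ι] [DecidableEq α] (Λ Λi : Finset ι) (hs : Λi ⊆ Λ)
    (vs : ι → Finset α) (w : ι → ℝ) (G : Finset ι → ℝ) :
    ∑ L ∈ fam Λ vs, (∏ c ∈ L, w c) * G L =
      ∑ Fo ∈ fam (Λ \ Λi) vs, (∏ c ∈ Fo, w c) *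
        ∑ L' ∈ fam (Λi.filter (fun d => ∀ c ∈ Fo, Disjoint (vs c) (vs d))) vs,
          (∏ c ∈ L', w c) * G (Fo ∪ L') := by
  classical
  simp_rw [Finset.mul_sum]
  rw [Finset.sum_sigma']
  symm
  have hdis : ∀ (Fo L' : Finset ι), Fo ⊆ Λ \ Λi → L' ⊆ Λi → Disjoint Fo L' := by
    intro Fo L' h1 h2
    rw [Finset.disjoint_left]
    intro c hc hc'
    exact (Finset.mem_sdiff.1 (h1 hc)).2 (h2 hc')
  refine Finset.sum_bij' (fun p _ => p.1 ∪ p.2)
    (fun L _ => ⟨L.filter (fun c => c ∉ Λi), L.filter (fun c => c ∈ Λi)⟩) ?_ ?_ ?_ ?_ ?_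
  · rintro ⟨Fo, L'⟩ h
    rw [Finset.mem_sigma, mem_fam, mem_fam] at h
    obtain ⟨⟨h1, h2⟩, h3, h4⟩ := h
    simp only at h1 h2 h3 h4 ⊢
    rw [mem_fam]
    refine ⟨Finset.union_subset (h1.trans Finset.sdiff_subset)
      ((h3.trans (Finset.filter_subset _ _)).trans hs), ?_⟩
    intro c hc d hd hne
    rcases Finset.mem_union.1 hc with hc | hc <;> rcases Finset.mem_union.1 hd with hd | hd
    · exact h2 c hc d hd hne
    · exact (Finset.mem_filter.1 (h3 hd)).2 c hc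
    · exact ((Finset.mem_filter.1 (h3 hc)).2 d hd).symm
    · exact h4 c hc d hd hne
  · intro L h
    rw [mem_fam] at h
    rw [Finset.mem_sigma, mem_fam, mem_fam]
    refine ⟨⟨?_, ?_⟩, ?_, ?_⟩
    · intro c hc
      obtain ⟨a, b⟩ := Finset.mem_filter.1 hc
      exact Finset.mem_sdiff.2 ⟨h.1 a, b⟩
    · intro c hc d hd hne
      exact h.2 c (Finset.mem_filter.1 hc).1 d (Finset.mem_filter.1 hd).1 hne
    · intro d hd
      obtain ⟨a, b⟩ := Finset.mem_filter.1 hd
      refine Finset.mem_filter.2 ⟨b, fun c hc => ?_⟩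
      obtain ⟨a', b'⟩ := Finset.mem_filter.1 hc
      exact h.2 c a' d a (fun e => b' (e ▸ b))
    · intro c hc d hd hne
      exact h.2 c (Finset.mem_filter.1 hc).1 d (Finset.mem_filter.1 hd).1 hne
  · rintro ⟨Fo, L'⟩ h
    rw [Finset.mem_sigma, mem_fam, mem_fam] at h
    obtain ⟨⟨h1, h2⟩, h3, h4⟩ := h
    simp only at h1 h2 h3 h4 ⊢
    have h3' := h3.trans (Finset.filter_subset _ _)
    congr 1
    · ext c
      rw [Finset.mem_filter, Finset.mem_union]
      constructor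
      · rintro ⟨a | a, b⟩
        · exact a
        · exact absurd (h3' a) b
      · intro hc
        exact ⟨Or.inl hc, (Finset.mem_sdiff.1 (h1 hc)).2⟩
    · ext c
      rw [Finset.mem_filter, Finset.mem_union]
      constructor
      · rintro ⟨a | a, b⟩
        · exact absurd b (Finset.mem_sdiff.1 (h1 a)).2
        · exact a
      · intro hc
        exact ⟨Or.inr hc, h3' hc⟩
  · intro L h
    simp only
    ext c
    rw [Finset.mem_union, Finset.mem_filter, Finset.mem_filter]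
    tauto
  · rintro ⟨Fo, L'⟩ h
    rw [Finset.mem_sigma, mem_fam, mem_fam] at h
    obtain ⟨⟨h1, h2⟩, h3, h4⟩ := h
    simp only at h1 h2 h3 h4 ⊢
    rw [Finset.prod_union (hdis Fo L' h1 (h3.trans (Finset.filter_subset _ _)))]
    ring

/-- the vertices of `B` which are not on a loop of `L` leaving `B` -/
noncomputable def rest (B : Finset V) (L : Finset (Finset (Sym2 V))) : Finset V :=
  B \ (L.filter (fun c => ¬ verts c ⊆ B)).biUnion verts

theorem loops_out {S B : Finset V} {Fo : Finset (Finset (Sym2 V))} (h : Fo ⊆ loops S \ loops B) :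
    ∀ c ∈ Fo, ¬ verts c ⊆ B ∧ IsLoop c ∧ verts c ⊆ S := by
  intro c hc
  obtain ⟨h1, h2⟩ := Finset.mem_sdiff.1 (h hc)
  obtain ⟨h3, h4⟩ := mem_loops.1 h1
  exact ⟨fun h5 => h2 (mem_loops.2 ⟨h5, h4⟩), h4, h3⟩

theorem loops_in (B : Finset V) (Fo : Finset (Finset (Sym2 V))) :
    (loops B).filter (fun d => ∀ c ∈ Fo, Disjoint (verts c) (verts d)) =
      loops (B \ Fo.biUnion verts) := by
  ext d
  rw [Finset.mem_filter, mem_loops, mem_loops]
  constructor
  · rintro ⟨⟨h1, h2⟩, h3⟩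
    refine ⟨fun v hv => Finset.mem_sdiff.2 ⟨h1 hv, fun h => ?_⟩, h2⟩
    obtain ⟨c, hc, hcv⟩ := Finset.mem_biUnion.1 h
    exact Finset.disjoint_left.1 (h3 c hc) hcv hv
  · rintro ⟨h1, h2⟩
    refine ⟨⟨fun v hv => (Finset.mem_sdiff.1 (h1 hv)).1, h2⟩, fun c hc => ?_⟩
    rw [Finset.disjoint_left]
    intro v hv hv'
    exact (Finset.mem_sdiff.1 (h1 hv')).2 (Finset.mem_biUnion.2 ⟨c, hc, hv⟩)

theorem rest_union {S B : Finset V} {Fo L' : Finset (Finset (Sym2 V))}
    (h1 : Fo ⊆ loops S \ loops B) (h2 : L' ⊆ loops (B \ Fo.biUnion verts)) :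
    rest B (Fo ∪ L') = B \ Fo.biUnion verts := by
  unfold rest
  congr 2
  ext c
  rw [Finset.mem_filter, Finset.mem_union]
  constructor
  · rintro ⟨a | a, b⟩
    · exact a
    · exact absurd ((mem_loops.1 (h2 a)).1.trans Finset.sdiff_subset) b
  · intro hc
    exact ⟨Or.inl hc, (loops_out h1 c hc).1⟩

/-- weight of the paths of `U` which avoid the loops of `L` and stop in `Q` -/
noncomputable def pw (x : ℝ) (U : Finset V) (L : Finset (Finset (Sym2 V))) (Q : V → Prop) : ℝ :=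
  ∑ᶠ q ∈ {q | q ∈ Paths U ∧ ((∀ c ∈ L, ∀ v ∈ q.1, v ∉ verts c) ∧ Q q.2)}, x ^ q.1.length

theorem sum_paths' {M : Type*} [AddCommMonoid M] {S : Finset V} (h00 : ((0, 0) : V) ∉ S)
    (R : List V × V → Prop) (R' : List V → Prop) [DecidablePred R'] (f : List V × V → M)
    (g : List V → M) (hR : ∀ q ∈ Paths S, R q ↔ R' (tl q)) (hfg : ∀ q ∈ Paths S, f q = g (tl q)) :
    ∑ᶠ q ∈ {q | q ∈ Paths S ∧ R q}, f q = ∑ l ∈ (exits S).filter R', g l := by
  rw [← finsum_mem_coe_finset]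
  apply finsum_mem_eq_of_bijOn tl
  · refine ⟨?_, tl_inj.injOn, ?_⟩
    · rintro q ⟨h2, h3⟩
      rw [Finset.mem_coe, Finset.mem_filter]
      exact ⟨tl_mem h2 h00, (hR q h2).1 h3⟩
    · intro l hl
      rw [Finset.mem_coe, Finset.mem_filter] at hl
      obtain ⟨q, hq, rfl⟩ := exists_tl hl.1
      exact ⟨q, ⟨hq, (hR q hq).2 hl.2⟩, rfl⟩
  · rintro q ⟨h2, _⟩
    exact hfg q h2

open Classical in
theorem pw_eq (x : ℝ) {U : Finset V} (h00 : ((0, 0) : V) ∉ U) (L : Finset (Finset (Sym2 V)))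
    (Q : V → Prop) :
    pw x U L Q = ∑ l ∈ (exits U).filter (fun l => Q (l.headD (0, 0))),
      if (∀ c ∈ L, ∀ v ∈ l.tail.dropLast, v ∉ verts c) then x ^ (l.length - 2) else 0 := by
  unfold pw
  rw [sum_paths' h00 _ (fun l => (∀ c ∈ L, ∀ v ∈ l.tail.dropLast, v ∉ verts c) ∧
    Q (l.headD (0, 0))) _ (fun l => x ^ (l.length - 2))]
  · rw [← Finset.sum_filter, Finset.filter_filter]
    refine Finset.sum_congr ?_ (fun _ _ => rfl)
    ext l
    rw [Finset.mem_filter, Finset.mem_filter]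
    tauto
  · intro q _
    unfold tl
    simp
  · intro q _
    unfold tl
    simp

/-- the loops of `U` avoiding a path -/
theorem avoid_sum (n x : ℝ) {U : Finset V} (h00 : ((0, 0) : V) ∉ U) (l : List V)
    (hl : ∀ v ∈ l.tail, v ∈ l.tail.dropLast ∨ v = (0, 0)) :
    (∑ L' ∈ (fam (loops U) verts).filter (fun L' => ∀ c ∈ L', ∀ v ∈ l.tail.dropLast, v ∉ verts c),
      ∏ c ∈ L', lw n x c) = ZL n x (U \ l.tail.toFinset) := by
  classical
  unfold ZL gasZ
  refine Finset.sum_congr ?_ (fun _ _ => rfl)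
  ext L'
  rw [Finset.mem_filter, mem_fam, mem_fam]
  constructor
  · rintro ⟨⟨h1, h2⟩, h3⟩
    refine ⟨fun c hc => ?_, h2⟩
    obtain ⟨h4, h5⟩ := mem_loops.1 (h1 hc)
    refine mem_loops.2 ⟨fun v hv => ?_, h5⟩
    rw [Finset.mem_sdiff, List.mem_toFinset]
    refine ⟨h4 hv, fun hvl => ?_⟩
    rcases hl v hvl with h6 | h6
    · exact h3 c hc v h6 hv
    · rw [h6] at hv
      exact h00 (h4 hv)
  · rintro ⟨h1, h2⟩
    refine ⟨⟨fun c hc => ?_, h2⟩, fun c hc v hv hvc => ?_⟩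
    · obtain ⟨h4, h5⟩ := mem_loops.1 (h1 hc)
      exact mem_loops.2 ⟨h4.trans Finset.sdiff_subset, h5⟩
    · obtain ⟨h4, h5⟩ := mem_loops.1 (h1 hc)
      have := h4 hvc
      rw [Finset.mem_sdiff, List.mem_toFinset] at this
      exact this.2 (List.mem_of_mem_dropLast hv)

theorem exits_tail {S : Finset V} {l : List V} (hl : l ∈ exits S) :
    ∀ v ∈ l.tail, v ∈ l.tail.dropLast ∨ v = (0, 0) := by
  obtain ⟨q, _, rfl⟩ := exists_tl hl
  intro v hv
  unfold tl at hv ⊢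
  simp only [List.tail_cons, List.mem_append, List.mem_reverse, List.mem_singleton] at hv
  simp only [List.tail_cons, List.dropLast_concat, List.mem_reverse]
  exact hv

/-- inner sum -/
theorem inner_sum (n x : ℝ) {U : Finset V} (h00 : ((0, 0) : V) ∉ U) (hZ : ZL n x U ≠ 0)
    (Q : V → Prop) :
    ∑ L' ∈ fam (loops U) verts, (∏ c ∈ L', lw n x c) * pw x U L' Q =
      ZL n x U * mass n x U {v | Q v} := by
  classical
  simp_rw [pw_eq x h00]
  rw [mass_eq h00, Finset.mul_sum]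
  simp_rw [Finset.mul_sum]
  rw [Finset.sum_comm]
  refine Finset.sum_congr rfl fun l hl => ?_
  have hl' : l ∈ exits U := (Finset.mem_filter.1 hl).1
  unfold wL
  rw [mul_div_cancel₀ _ hZ, ← avoid_sum n x h00 l (exits_tail hl'), Finset.mul_sum,
    Finset.sum_filter]
  refine Finset.sum_congr rfl fun L' _ => ?_
  split_ifs <;> ring

/-- total weight of pairs (loops in `S`, path in the rest of `B`) -/
noncomputable def YY (n x : ℝ) (S B : Finset V) (Q : V → Prop) : ℝ :=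
  ∑ L ∈ fam (loops S) verts, (∏ c ∈ L, lw n x c) * pw x (rest B L) L Q

theorem pw_union (x : ℝ) {S B : Finset V} {Fo L' : Finset (Finset (Sym2 V))} (Q : V → Prop)
    (h1 : Fo ⊆ loops S \ loops B) (h2 : L' ⊆ loops (B \ Fo.biUnion verts)) :
    pw x (rest B (Fo ∪ L')) (Fo ∪ L') Q = pw x (B \ Fo.biUnion verts) L' Q := by
  rw [rest_union h1 h2]
  unfold pw
  refine finsum_mem_congr ?_ (fun _ _ => rfl)
  ext q
  refine and_congr_right fun hq => and_congr_left fun _ => ?_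
  constructor
  · intro h c hc
    exact h c (Finset.mem_union_right _ hc)
  · intro h c hc v hv
    rcases Finset.mem_union.1 hc with hc | hc
    · intro hvc
      have := hq.2.2.1 v hv
      exact (Finset.mem_sdiff.1 this).2 (Finset.mem_biUnion.2 ⟨c, hc, hvc⟩)
    · exact h c hc v hv

theorem YY_eq (n x : ℝ) {S B : Finset V} (hBS : B ⊆ S) (h0 : 0 ≤ n) (hx : 0 ≤ x)
    (h00 : ((0, 0) : V) ∉ B) (Q : V → Prop) :
    YY n x S B Q = ∑ Fo ∈ fam (loops S \ loops B) verts, (∏ c ∈ Fo, lw n x c) *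
      (ZL n x (B \ Fo.biUnion verts) * mass n x (B \ Fo.biUnion verts) {v | Q v}) := by
  have hs : loops B ⊆ loops S := by
    intro c hc
    obtain ⟨h1, h2⟩ := mem_loops.1 hc
    exact mem_loops.2 ⟨h1.trans hBS, h2⟩
  unfold YY
  rw [gas_split (loops S) (loops B) hs verts (lw n x) (fun L => pw x (rest B L) L Q)]
  refine Finset.sum_congr rfl fun Fo hF => ?_
  congr 1
  have h00' : ((0, 0) : V) ∉ B \ Fo.biUnion verts := fun h => h00 (Finset.mem_sdiff.1 h).1
  have hZ : ZL n x (B \ Fo.biUnion verts) ≠ 0 := by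
    have := ZL_pos h0 hx (B \ Fo.biUnion verts)
    linarith
  rw [← inner_sum n x h00' hZ Q, loops_in]
  refine Finset.sum_congr rfl fun L' hL' => ?_
  congr 1
  exact pw_union x Q (mem_fam.1 hF).1 (mem_fam.1 hL').1

theorem ZL_split (n x : ℝ) {S B : Finset V} (hBS : B ⊆ S) :
    ZL n x S = ∑ Fo ∈ fam (loops S \ loops B) verts, (∏ c ∈ Fo, lw n x c) *
      ZL n x (B \ Fo.biUnion verts) := by
  have hs : loops B ⊆ loops S := by
    intro c hc
    obtain ⟨h1, h2⟩ := mem_loops.1 hc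
    exact mem_loops.2 ⟨h1.trans hBS, h2⟩
  have h := gas_split (loops S) (loops B) hs verts (lw n x) (fun _ => 1)
  simp only [mul_one, loops_in] at h
  exact h

variable {n x t : ℝ}

/-- **The bound in arbitrarily large domains.** -/
theorem explore (h0 : 0 ≤ n) (hx0 : 0 < x) (hn : n = -2 * Real.cos (4 * t))
    (hx : x * (2 * Real.cos t) = 1) {u w : ℤ} (hu : u = 3 ∨ u = 4 ∨ u = 5)
    (hw : w = 2 ∨ w = 3 ∨ w = 4) {S B : Finset V} (hBS : B ⊆ S) (hB : ∀ v ∈ B, Wq u w v) :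
    Real.cos (t * (u - w) / 2) * ZL n x S ≤
      YY n x S B (Wq u w) + Real.cos (t * (u + w) / 2) * YY n x S B (fun v => ¬ Wq u w v) := by
  have h00 := zero_notMem hB
  rw [YY_eq n x hBS h0 hx0.le h00, YY_eq n x hBS h0 hx0.le h00, ZL_split n x hBS,
    Finset.mul_sum, Finset.mul_sum, ← Finset.sum_add_distrib]
  apply Finset.sum_le_sum
  intro Fo _
  have h1 := wide h0 hx0 hn hx hu hw (S := B \ Fo.biUnion verts)
    (fun v hv => hB v (Finset.mem_sdiff.1 hv).1)
  unfold farM sideM at h1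
  have h2 : 0 ≤ ∏ c ∈ Fo, lw n x c := Finset.prod_nonneg fun c _ => by
    unfold lw
    exact mul_nonneg h0 (pow_nonneg hx0.le _)
  have h3 := ZL_pos h0 hx0.le (B \ Fo.biUnion verts)
  have h4 := mul_le_mul_of_nonneg_left h1 (mul_nonneg h2 (by linarith : 0 ≤ ZL n x (B \ Fo.biUnion verts)))
  calc Real.cos (t * (u - w) / 2) * ((∏ c ∈ Fo, lw n x c) * ZL n x (B \ Fo.biUnion verts)) =
      (∏ c ∈ Fo, lw n x c) * ZL n x (B \ Fo.biUnion verts) * Real.cos (t * (u - w) / 2) := by ring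
    _ ≤ _ := h4
    _ = _ := by ring

end TH508.ON
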