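import Mathlib

set_option autoImplicit false

/-! The two integrable points of the O(n) model. -/

namespace TH508.ON

/-- the angle `λ(n)`, `n = - 2 cos (4 λ)`, `π/8 ≤ λ ≤ π/4` -/
noncomputable def lam (n : ℝ) : ℝ := Real.arccos (-(n / 2)) / 4

/-- the critical point `x_c(n)` -/
noncomputable def xc (n : ℝ) : ℝ := 1 / Real.sqrt (2 + Real.sqrt (2 - n))

/-- the integrable point of the dense phase -/
noncomputable def xd (n : ℝ) : ℝ := 1 / Real.sqrt (2 - Real.sqrt (2 - n))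

variable {n : ℝ}

theorem n_eq (h0 : 0 ≤ n) (h2 : n ≤ 2) : n = -2 * Real.cos (4 * lam n) := by
  unfold lam
  rw [mul_div_cancel₀ _ (by norm_num : (4 : ℝ) ≠ 0), Real.cos_arccos (by linarith) (by linarith)]
  ring

theorem lam_ge (h0 : 0 ≤ n) : Real.pi / 8 ≤ lam n := by
  unfold lam
  have h : Real.arccos 0 ≤ Real.arccos (-(n / 2)) := Real.arccos_le_arccos (by linarith)
  rw [Real.arccos_zero] at h
  linarith

theorem lam_le (n : ℝ) : lam n ≤ Real.pi / 4 := by
  unfold lam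
  have h := Real.arccos_le_pi (-(n / 2))
  linarith

theorem cos2 (h0 : 0 ≤ n) (h2 : n ≤ 2) : 2 * Real.cos (2 * lam n) = Real.sqrt (2 - n) := by
  have h1 := lam_ge h0
  have h3 := lam_le n
  have h4 : 0 ≤ Real.cos (2 * lam n) := Real.cos_nonneg_of_mem_Icc
    ⟨by linarith [Real.pi_pos], by linarith⟩
  rw [eq_comm, Real.sqrt_eq_iff_mul_self_eq (by linarith) (by linarith)]
  have h5 := Real.cos_two_mul (2 * lam n)
  have h6 : 2 * (2 * lam n) = 4 * lam n := by ring
  rw [h6] at h5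
  have h7 := n_eq h0 h2
  nlinarith

theorem xc_mul (h0 : 0 ≤ n) (h2 : n ≤ 2) : xc n * (2 * Real.cos (lam n)) = 1 := by
  have h1 := lam_ge h0
  have h3 := lam_le n
  have h4 : 0 < Real.cos (lam n) := Real.cos_pos_of_mem_Ioo
    ⟨by linarith [Real.pi_pos], by linarith [Real.pi_pos]⟩
  have h5 : Real.sqrt (2 + Real.sqrt (2 - n)) = 2 * Real.cos (lam n) := by
    rw [Real.sqrt_eq_iff_mul_self_eq (by positivity) (by positivity), ← cos2 h0 h2,
      Real.cos_two_mul]
    ring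
  unfold xc
  rw [h5, one_div, inv_mul_cancel₀ (by positivity)]

theorem xd_mul (h0 : 0 ≤ n) (h2 : n ≤ 2) :
    xd n * (2 * Real.cos (Real.pi / 2 - lam n)) = 1 := by
  have h1 := lam_ge h0
  have h3 := lam_le n
  rw [Real.cos_pi_div_two_sub]
  have h4 : 0 < Real.sin (lam n) := Real.sin_pos_of_pos_of_lt_pi
    (by linarith [Real.pi_pos]) (by linarith [Real.pi_pos])
  have h5 : Real.sqrt (2 - Real.sqrt (2 - n)) = 2 * Real.sin (lam n) := by
    have h6 : 2 - Real.sqrt (2 - n) = (2 * Real.sin (lam n)) * (2 * Real.sin (lam n)) := by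
      rw [← cos2 h0 h2, Real.cos_two_mul]
      have := Real.sin_sq_add_cos_sq (lam n)
      nlinarith
    rw [h6, Real.sqrt_mul_self (by positivity)]
  unfold xd
  rw [h5, one_div, inv_mul_cancel₀ (by positivity)]

theorem n_eq' (h0 : 0 ≤ n) (h2 : n ≤ 2) :
    n = -2 * Real.cos (4 * (Real.pi / 2 - lam n)) := by
  have e : 4 * (Real.pi / 2 - lam n) = 2 * Real.pi - 4 * lam n := by ring
  rw [e, Real.cos_two_pi_sub]
  exact n_eq h0 h2

theorem xc_pos (h0 : 0 ≤ n) (h2 : n ≤ 2) : 0 < xc n := by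
  unfold xc
  have := Real.sqrt_nonneg (2 - n)
  positivity

theorem xd_pos (h0 : 0 ≤ n) (_h2 : n ≤ 2) : 0 < xd n := by
  unfold xd
  have h : Real.sqrt (2 - n) < 2 := by
    rw [Real.sqrt_lt' (by norm_num)]
    linarith
  have : 0 < 2 - Real.sqrt (2 - n) := by linarith
  positivity

/-- `x` is an integrable point with angle `t` -/
def Pt (n x t : ℝ) : Prop :=
  (x = xc n ∧ t = lam n) ∨ (x = xd n ∧ t = Real.pi / 2 - lam n)

theorem Pt.facts {x t : ℝ} (h : Pt n x t) (h0 : 0 ≤ n) (h2 : n ≤ 2) :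
    0 < x ∧ n = -2 * Real.cos (4 * t) ∧ x * (2 * Real.cos t) = 1 ∧ 0 ≤ t ∧ t ≤ 3 * Real.pi / 8 := by
  have h1 := lam_ge h0
  have h3 := lam_le n
  have hp := Real.pi_pos
  rcases h with ⟨rfl, rfl⟩ | ⟨rfl, rfl⟩
  · exact ⟨xc_pos h0 h2, n_eq h0 h2, xc_mul h0 h2, by linarith, by linarith⟩
  · exact ⟨xd_pos h0 h2, n_eq' h0 h2, xd_mul h0 h2, by linarith, by linarith⟩

/-- the slit plane at `x_c(n)` -/
theorem cos9 (h0 : 0 ≤ n) : Real.cos (lam n * (5 + 4) / 2) ≤ -Real.sin (Real.pi / 16) := by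
  have h1 := lam_ge h0
  have h3 := lam_le n
  have hp := Real.pi_pos
  have e : Real.cos (lam n * (5 + 4) / 2) = -Real.cos (lam n * (5 + 4) / 2 - Real.pi) := by
    rw [Real.cos_sub_pi]
    ring
  rw [e, neg_le_neg_iff, ← Real.cos_abs]
  have e2 : Real.sin (Real.pi / 16) = Real.cos (7 * Real.pi / 16) := by
    rw [← Real.cos_pi_div_two_sub]
    congr 1
    ring
  rw [e2]
  apply Real.cos_le_cos_of_nonneg_of_le_pi (abs_nonneg _) (by linarith)
  rw [abs_le]
  constructor <;> linarith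

end TH508.ON
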