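import Pool.Agent.TH508.ON.Main
import Pool.Agent.TH508.ON.Num

set_option autoImplicit false
set_option linter.unusedSimpArgs false

/-! Consequences: probabilities, number of exits. -/

namespace TH508.ON

open H978R2.Hex H978R3.Wedge

variable {n x t : ℝ}

theorem mass_nonneg' (hn : 0 ≤ n) (hx : 0 ≤ x) {S : Finset V}
    (h00 : ((0, 0) : V) ∉ S) (Q : V → Prop) [DecidablePred Q] : 0 ≤ mass n x S {v | Q v} := by
  rw [mass_eq h00]
  exact Finset.sum_nonneg fun l _ => wL_nonneg hn hx S l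

theorem mass_add (n x : ℝ) {S : Finset V}
    (h00 : ((0, 0) : V) ∉ S) (Q : V → Prop) [DecidablePred Q] :
    mass n x S {v | Q v} + mass n x S {v | ¬ Q v} = mass n x S Set.univ := by
  have e : (Set.univ : Set V) = {v | True} := by
    ext v
    exact ⟨fun _ => trivial, fun _ => trivial⟩
  rw [e, mass_eq h00, mass_eq h00, mass_eq h00,
    Finset.sum_filter_add_sum_filter_not (exits S) (fun l => Q (l.headD (0, 0)))]
  refine Finset.sum_congr ?_ (fun _ _ => rfl)
  rw [Finset.filter_true_of_mem (fun _ _ => trivial)]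

/-- the total weight is at least one -/
theorem total_ge (h0 : 0 ≤ n) (hx0 : 0 < x) (hn : n = -2 * Real.cos (4 * t))
    (hx : x * (2 * Real.cos t) = 1) {S : Finset V} (hS : ∀ v ∈ S, ¬ Slit v) : 1 ≤ mass n x S Set.univ := by
  have h00 : ((0, 0) : V) ∉ S := fun h => hS _ h ⟨rfl, le_refl _⟩
  have h := ident_r h0 hx0 hn hx S hS 0
  rw [Real.cos_zero] at h
  have e : (Set.univ : Set V) = {v | True} := by
    ext v
    exact ⟨fun _ => trivial, fun _ => trivial⟩
  rw [e, mass_eq h00, Finset.filter_true_of_mem (fun _ _ => trivial), ← h]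
  apply Finset.sum_le_sum
  intro l _
  have h2 := wL_nonneg h0 hx0.le S l
  have h3 := Real.cos_le_one (W l * t + 0)
  nlinarith

/-- probability to leave the wedge through the far boundary -/
theorem prob_ge (h0 : 0 ≤ n) (hx0 : 0 < x) (hn : n = -2 * Real.cos (4 * t))
    (hx : x * (2 * Real.cos t) = 1) {u w : ℤ} (hu : u = 3 ∨ u = 4 ∨ u = 5)
    (hw : w = 2 ∨ w = 3 ∨ w = 4) {S : Finset V} (hS : ∀ v ∈ S, Wq u w v) (hc : 0 ≤ Real.cos (t * (u - w) / 2))
    {c : ℝ} (hc0 : 0 ≤ c) (hcc : Real.cos (t * (u + w) / 2) ≤ -c) :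
    c / (1 + c) ≤ farM n x u w S / mass n x S Set.univ := by
  have h00 := zero_notMem hS
  have hw1 := wide h0 hx0 hn hx hu hw hS
  have hT := total_ge h0 hx0 hn hx (fun v hv => wq_slit (hS v hv))
  have hA := mass_add n x h00 (Wq u w)
  have hsd := mass_nonneg' h0 hx0.le h00 (fun v => ¬ Wq u w v)
  have e1 : mass n x S {v | Wq u w v} = farM n x u w S := rfl
  have e2 : mass n x S {v | ¬ Wq u w v} = sideM n x u w S := rfl
  rw [e1, e2] at hA
  rw [e2] at hsd
  rw [div_le_div_iff₀ (by linarith) (by linarith), ← hA]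
  nlinarith

/-- exit vertices of the truncated wedge -/
noncomputable def ring (N : ℤ) : Finset V :=
  ((Finset.Icc (-(2 * N + 1)) (2 * N + 1)).image (fun a => ((a, N + 1) : V))) ∪
  ((Finset.Icc (-(2 * N + 1)) (2 * N + 1)).image (fun a => ((a, -N - 1) : V))) ∪
  ((Finset.Icc (-(2 * N + 1)) (2 * N + 1)).image (fun a => ((a, -2 * N - 1 - a) : V))) ∪
  ((Finset.Icc (-(2 * N + 1)) (2 * N + 1)).image (fun a => ((a, 2 * N + 2 - a) : V))) ∪
  ((Finset.Icc (-(2 * N + 1)) (2 * N + 1)).image (fun a => ((a, a + 2 * N) : V))) ∪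
  ((Finset.Icc (-(2 * N + 1)) (2 * N + 1)).image (fun a => ((a, a - 2 * N - 1) : V)))

theorem card_ring (N : ℤ) (hN : 1 ≤ N) : ((ring N).card : ℝ) ≤ 42 * N := by
  have h : ∀ f : ℤ → V, ((Finset.Icc (-(2 * N + 1)) (2 * N + 1)).image f).card ≤
      (4 * N + 3).toNat := by
    intro f
    refine Finset.card_image_le.trans ?_
    rw [Int.card_Icc]
    apply le_of_eq
    congr 1
    ring
  have h2 : (ring N).card ≤ 6 * (4 * N + 3).toNat := by
    unfold ring
    refine (Finset.card_union_le _ _).trans ?_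
    have a1 := h (fun a => ((a, a - 2 * N - 1) : V))
    have a2 := h (fun a => ((a, a + 2 * N) : V))
    have a3 := h (fun a => ((a, 2 * N + 2 - a) : V))
    have a4 := h (fun a => ((a, -2 * N - 1 - a) : V))
    have a5 := h (fun a => ((a, -N - 1) : V))
    have a6 := h (fun a => ((a, N + 1) : V))
    have b1 := Finset.card_union_le
      (((Finset.Icc (-(2 * N + 1)) (2 * N + 1)).image (fun a => ((a, N + 1) : V))) ∪
      ((Finset.Icc (-(2 * N + 1)) (2 * N + 1)).image (fun a => ((a, -N - 1) : V))) ∪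
      ((Finset.Icc (-(2 * N + 1)) (2 * N + 1)).image (fun a => ((a, -2 * N - 1 - a) : V))) ∪
      ((Finset.Icc (-(2 * N + 1)) (2 * N + 1)).image (fun a => ((a, 2 * N + 2 - a) : V))))
      ((Finset.Icc (-(2 * N + 1)) (2 * N + 1)).image (fun a => ((a, a + 2 * N) : V)))
    have b2 := Finset.card_union_le
      (((Finset.Icc (-(2 * N + 1)) (2 * N + 1)).image (fun a => ((a, N + 1) : V))) ∪
      ((Finset.Icc (-(2 * N + 1)) (2 * N + 1)).image (fun a => ((a, -N - 1) : V))) ∪
      ((Finset.Icc (-(2 * N + 1)) (2 * N + 1)).image (fun a => ((a, -2 * N - 1 - a) : V))))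
      ((Finset.Icc (-(2 * N + 1)) (2 * N + 1)).image (fun a => ((a, 2 * N + 2 - a) : V)))
    have b3 := Finset.card_union_le
      (((Finset.Icc (-(2 * N + 1)) (2 * N + 1)).image (fun a => ((a, N + 1) : V))) ∪
      ((Finset.Icc (-(2 * N + 1)) (2 * N + 1)).image (fun a => ((a, -N - 1) : V))))
      ((Finset.Icc (-(2 * N + 1)) (2 * N + 1)).image (fun a => ((a, -2 * N - 1 - a) : V)))
    have b4 := Finset.card_union_le
      ((Finset.Icc (-(2 * N + 1)) (2 * N + 1)).image (fun a => ((a, N + 1) : V)))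
      ((Finset.Icc (-(2 * N + 1)) (2 * N + 1)).image (fun a => ((a, -N - 1) : V)))
    omega
  have h3 : ((ring N).card : ℤ) ≤ 42 * N := by omega
  exact_mod_cast h3

theorem mem_ring {N : ℤ} {v z : V} (hv : Hx N v) (ha : Adj v z) (hz : ¬ Hx N z) : z ∈ ring N := by
  rw [adj_iff] at ha
  unfold Hx at hv hz
  have h : (z.2 = N + 1 ∨ z.2 = -N - 1 ∨ z.1 + z.2 = -2 * N - 1 ∨ z.1 + z.2 = 2 * N + 2 ∨
      z.1 - z.2 = -2 * N ∨ z.1 - z.2 = 2 * N + 1) ∧ -(2 * N + 1) ≤ z.1 ∧ z.1 ≤ 2 * N + 1 := by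
    omega
  unfold ring
  simp only [Finset.mem_union, Finset.mem_image, Finset.mem_Icc]
  obtain ⟨h1, h2, h3⟩ := h
  rcases h1 with h | h | h | h | h | h
  · exact Or.inl (Or.inl (Or.inl (Or.inl (Or.inl ⟨z.1, ⟨h2, h3⟩, Prod.ext rfl (by simp only; omega)⟩))))
  · exact Or.inl (Or.inl (Or.inl (Or.inl (Or.inr ⟨z.1, ⟨h2, h3⟩, Prod.ext rfl (by simp only; omega)⟩))))
  · exact Or.inl (Or.inl (Or.inl (Or.inr ⟨z.1, ⟨h2, h3⟩, Prod.ext rfl (by simp only; omega)⟩)))
  · exact Or.inl (Or.inl (Or.inr ⟨z.1, ⟨h2, h3⟩, Prod.ext rfl (by simp only; omega)⟩))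
  · exact Or.inl (Or.inr ⟨z.1, ⟨h2, h3⟩, Prod.ext rfl (by simp only; omega)⟩)
  · exact Or.inr ⟨z.1, ⟨h2, h3⟩, Prod.ext rfl (by simp only; omega)⟩

/-- the best exit vertex -/
theorem best_exit (hn : 0 ≤ n) (hx : 0 ≤ x) {u w N : ℤ} (hN : 1 ≤ N) {a : ℝ} (ha : 0 < a)
    (h : a ≤ farM n x u w (hexW u w N)) :
    ∃ z, Wq u w z ∧ ¬ Hx N z ∧ a / (42 * N) ≤ mass n x (hexW u w N) {z} := by
  have hS : ∀ v ∈ hexW u w N, Wq u w v := fun v hv => ((mem_hexW u w N v).1 hv).1
  have h1 : ((1, 0) : V) ∈ hexW u w N := by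
    rw [mem_hexW]
    unfold Wq Hx
    simp only
    omega
  have h00 := zero_notMem hS
  by_contra hcon
  push Not at hcon
  have hNr : (0 : ℝ) < 42 * N := by
    have : (1 : ℝ) ≤ N := by exact_mod_cast hN
    linarith
  have hsum : farM n x u w (hexW u w N) ≤
      ∑ z ∈ (ring N).filter (fun z => Wq u w z ∧ ¬ Hx N z), mass n x (hexW u w N) {z} := by
    unfold farM
    rw [mass_eq h00]
    have e : ∀ z : V, mass n x (hexW u w N) {z} =
        ∑ l ∈ (exits (hexW u w N)).filter (fun l => l.headD (0, 0) = z),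
          wL n x (hexW u w N) l := by
      intro z
      have : ({z} : Set V) = {v | v = z} := by ext v; exact Iff.rfl
      rw [this, mass_eq h00]
    simp_rw [e]
    rw [← Finset.sum_biUnion]
    · apply Finset.sum_le_sum_of_subset_of_nonneg
      · intro l hl
        rw [Finset.mem_filter] at hl
        rw [Finset.mem_biUnion]
        refine ⟨l.headD (0, 0), ?_, Finset.mem_filter.2 ⟨hl.1, rfl⟩⟩
        have hz : l.headD (0, 0) ∉ hexW u w N := by
          have := hl.1
          unfold exits at this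
          exact (Finset.mem_filter.1 this).2
        have hz2 : ¬ Hx N (l.headD (0, 0)) := fun hh => hz ((mem_hexW u w N _).2 ⟨hl.2, hh⟩)
        rw [Finset.mem_filter]
        refine ⟨?_, hl.2, hz2⟩
        obtain ⟨q, hq, rfl⟩ := exists_tl hl.1
        obtain ⟨q1, q2, q3, q4, q5, q6⟩ := hq
        have hne : q.1 ≠ [] := by
          intro h0
          rw [h0] at q1
          simp only [List.nil_append, List.head?_cons, Option.some.injEq] at q1
          exact hz (by
            unfold tl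
            simp only [List.headD_cons]
            rw [q1]
            exact h1)
        obtain ⟨s, b, hs⟩ : ∃ s b, q.1 = s ++ [b] := by
          rcases List.eq_nil_or_concat q.1 with h | ⟨s, b, h⟩
          · exact absurd h hne
          · exact ⟨s, b, by rw [h, List.concat_eq_append]⟩
        have hb : b ∈ hexW u w N := q3 b (by rw [hs]; simp)
        have hch : Adj b q.2 := by
          rw [hs, List.append_assoc] at q4
          have := (List.isChain_append.1 q4).2.1
          simp only [List.cons_append, List.nil_append] at this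
          rw [List.isChain_cons_cons] at this
          exact this.1
        exact mem_ring ((mem_hexW u w N b).1 hb).2 hch hz2
      · intro l _ _
        exact wL_nonneg hn hx _ l
    · intro z1 _ z2 _ hne
      simp only [Function.onFun]
      rw [Finset.disjoint_left]
      intro l hl1 hl2
      rw [Finset.mem_filter] at hl1 hl2
      exact hne (hl1.2.symm.trans hl2.2)
  have h2 : ∑ z ∈ (ring N).filter (fun z => Wq u w z ∧ ¬ Hx N z), mass n x (hexW u w N) {z} ≤
      ∑ _z ∈ (ring N).filter (fun z => Wq u w z ∧ ¬ Hx N z), a / (42 * N) := by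
    apply Finset.sum_le_sum
    intro z hz
    rw [Finset.mem_filter] at hz
    exact (hcon z hz.2.1 hz.2.2).le
  rw [Finset.sum_const, nsmul_eq_mul] at h2
  have hne : ((ring N).filter (fun z => Wq u w z ∧ ¬ Hx N z)).Nonempty := by
    rw [Finset.nonempty_iff_ne_empty]
    intro h0
    rw [h0, Finset.sum_empty] at hsum
    linarith
  have h3 : ∑ z ∈ (ring N).filter (fun z => Wq u w z ∧ ¬ Hx N z), mass n x (hexW u w N) {z} <
      ∑ _z ∈ (ring N).filter (fun z => Wq u w z ∧ ¬ Hx N z), a / (42 * N) := by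
    apply Finset.sum_lt_sum_of_nonempty hne
    intro z hz
    rw [Finset.mem_filter] at hz
    exact hcon z hz.2.1 hz.2.2
  rw [Finset.sum_const, nsmul_eq_mul] at h3
  have h4 : (((ring N).filter (fun z => Wq u w z ∧ ¬ Hx N z)).card : ℝ) ≤ 42 * N := by
    refine le_trans ?_ (card_ring N hN)
    exact_mod_cast Finset.card_filter_le _ _
  have h5 : (((ring N).filter (fun z => Wq u w z ∧ ¬ Hx N z)).card : ℝ) * (a / (42 * N)) ≤ a := by
    calc (((ring N).filter (fun z => Wq u w z ∧ ¬ Hx N z)).card : ℝ) * (a / (42 * N)) ≤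
        (42 * N) * (a / (42 * N)) := mul_le_mul_of_nonneg_right h4 (div_pos ha hNr).le
      _ = a := by field_simp
  linarith

end TH508.ON
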