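import Mathlib

set_option autoImplicit false

/-! A hard core gas of finitely many polymers: removing one site. -/

namespace TH508.ON

variable {ι α : Type*} [DecidableEq ι] [DecidableEq α]

open Classical in
/-- compatible families of polymers -/
noncomputable def fam (Λ : Finset ι) (vs : ι → Finset α) : Finset (Finset ι) :=
  Λ.powerset.filter (fun L => ∀ c ∈ L, ∀ d ∈ L, c ≠ d → Disjoint (vs c) (vs d))

theorem mem_fam {Λ : Finset ι} {vs : ι → Finset α} {L : Finset ι} :
    L ∈ fam Λ vs ↔ L ⊆ Λ ∧ ∀ c ∈ L, ∀ d ∈ L, c ≠ d → Disjoint (vs c) (vs d) := by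
  classical
  unfold fam
  rw [Finset.mem_filter, Finset.mem_powerset]

/-- partition function -/
noncomputable def gasZ (Λ : Finset ι) (vs : ι → Finset α) (w : ι → ℝ) : ℝ :=
  ∑ L ∈ fam Λ vs, ∏ c ∈ L, w c

theorem gas_rec (Λ : Finset ι) (vs : ι → Finset α) (w : ι → ℝ) (z : α) :
    gasZ Λ vs w = gasZ (Λ.filter (fun c => z ∉ vs c)) vs w +
      ∑ c ∈ Λ.filter (fun c => z ∈ vs c),
        w c * gasZ (Λ.filter (fun d => Disjoint (vs c) (vs d))) vs w := by
  classical
  unfold gasZ
  rw [← Finset.sum_filter_add_sum_filter_not (fam Λ vs) (fun L => ∀ c ∈ L, z ∉ vs c)]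
  congr 1
  · apply Finset.sum_congr _ (fun _ _ => rfl)
    ext L
    simp only [Finset.mem_filter, mem_fam]
    constructor
    · rintro ⟨⟨h1, h2⟩, h3⟩
      exact ⟨fun c hc => Finset.mem_filter.2 ⟨h1 hc, h3 c hc⟩, h2⟩
    · rintro ⟨h1, h2⟩
      exact ⟨⟨fun c hc => (Finset.mem_filter.1 (h1 hc)).1, h2⟩,
        fun c hc => (Finset.mem_filter.1 (h1 hc)).2⟩
  · simp_rw [Finset.mul_sum]
    rw [Finset.sum_sigma']
    symm
    refine Finset.sum_bij (fun p _ => insert p.1 p.2) ?_ ?_ ?_ ?_
    · rintro ⟨c, L⟩ h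
      rw [Finset.mem_sigma, Finset.mem_filter, mem_fam] at h
      obtain ⟨⟨h1, h2⟩, h3, h4⟩ := h
      rw [Finset.mem_filter, mem_fam]
      refine ⟨⟨?_, ?_⟩, ?_⟩
      · intro d hd
        rcases Finset.mem_insert.1 hd with rfl | hd
        · exact h1
        · exact (Finset.mem_filter.1 (h3 hd)).1
      · intro d hd e he hne
        rcases Finset.mem_insert.1 hd with rfl | hd <;>
          rcases Finset.mem_insert.1 he with rfl | he
        · exact absurd rfl hne
        · exact (Finset.mem_filter.1 (h3 he)).2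
        · exact (Finset.mem_filter.1 (h3 hd)).2.symm
        · exact h4 d hd e he hne
      · intro h
        exact h c (Finset.mem_insert_self _ _) h2
    · rintro ⟨c, L⟩ h ⟨c', L'⟩ h' heq
      simp only at heq
      rw [Finset.mem_sigma, Finset.mem_filter, mem_fam] at h h'
      obtain ⟨⟨h1, h2⟩, h3, h4⟩ := h
      obtain ⟨⟨h1', h2'⟩, h3', h4'⟩ := h'
      have hcL : ∀ d ∈ L, z ∉ vs d := fun d hd hz =>
        Finset.disjoint_left.1 (Finset.mem_filter.1 (h3 hd)).2 h2 hz
      have hcL' : ∀ d ∈ L', z ∉ vs d := fun d hd hz =>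
        Finset.disjoint_left.1 (Finset.mem_filter.1 (h3' hd)).2 h2' hz
      have e1 : c = c' := by
        have : c ∈ insert c' L' := by rw [← heq]; exact Finset.mem_insert_self _ _
        rcases Finset.mem_insert.1 this with h | h
        · exact h
        · exact absurd h2 (hcL' c h)
      subst e1
      have n1 : c ∉ L := fun h => hcL c h h2
      have n2 : c ∉ L' := fun h => hcL' c h h2
      have e2 : L = L' := by
        rw [← Finset.erase_insert n1, heq, Finset.erase_insert n2]
      rw [e2]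
    · intro L h
      rw [Finset.mem_filter, mem_fam] at h
      obtain ⟨⟨h1, h2⟩, h3⟩ := h
      push Not at h3
      obtain ⟨c, hc, hz⟩ := h3
      refine ⟨⟨c, L.erase c⟩, ?_, Finset.insert_erase hc⟩
      rw [Finset.mem_sigma, Finset.mem_filter, mem_fam]
      refine ⟨⟨h1 hc, hz⟩, ?_, ?_⟩
      · intro d hd
        obtain ⟨hd1, hd2⟩ := Finset.mem_erase.1 hd
        exact Finset.mem_filter.2 ⟨h1 hd2, h2 c hc d hd2 hd1.symm⟩
      · intro d hd e he
        exact h2 d (Finset.mem_of_mem_erase hd) e (Finset.mem_of_mem_erase he)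
    · rintro ⟨c, L⟩ h
      rw [Finset.mem_sigma, Finset.mem_filter, mem_fam] at h
      obtain ⟨⟨h1, h2⟩, h3, h4⟩ := h
      have n1 : c ∉ L := fun h =>
        Finset.disjoint_left.1 (Finset.mem_filter.1 (h3 h)).2 h2 h2
      simp only
      rw [Finset.prod_insert n1]

theorem gas_pos (Λ : Finset ι) (vs : ι → Finset α) (w : ι → ℝ) (hw : ∀ c, 0 ≤ w c) :
    1 ≤ gasZ Λ vs w := by
  classical
  unfold gasZ
  have h : (∅ : Finset ι) ∈ fam Λ vs := by
    rw [mem_fam]
    exact ⟨Finset.empty_subset _, by simp⟩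
  have h2 := Finset.single_le_sum (f := fun L => ∏ c ∈ L, w c)
    (fun L _ => Finset.prod_nonneg fun c _ => hw c) h
  simpa using h2

end TH508.ON
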