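import Pool.Agent.TH508.ON.Loop

set_option autoImplicit false

/-! Closed lists and loops. -/

namespace TH508.ON

open H978R2.Hex

/-- periodic function given by a list -/
def lf (u : List V) (i : ℤ) : V := u.getD (i % (u.length : ℤ)).toNat (0, 0)

/-- a closed list `z :: A` -/
structure CL (z : V) (A : List V) : Prop where
  h2 : 2 ≤ A.length
  nd : (z :: A).Nodup
  ch : (z :: (A ++ [z])).IsChain (fun x y => Adj y x)

/-- the loop of a closed list -/
def loopOf (z : V) (A : List V) : Finset (Sym2 V) := E (A.length + 1) (lf (z :: A))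

theorem lf_nat (z : V) (A : List V) (i : ℕ) (hi : i < A.length + 1) :
    lf (z :: A) i = (z :: A)[i]'(by simpa using hi) := by
  unfold lf
  have e : ((i : ℤ) % ((z :: A).length : ℤ)).toNat = i := by
    rw [Int.emod_eq_of_lt (by omega) (by simp only [List.length_cons]; push_cast; omega)]
    simp
  rw [e, List.getD_eq_getElem]

theorem lf_emod (z : V) (A : List V) (i : ℤ) :
    lf (z :: A) (i % ((A.length + 1 : ℕ) : ℤ)) = lf (z :: A) i := by
  unfold lf
  simp only [List.length_cons, Int.emod_emod_of_dvd _ (dvd_refl _)]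

theorem lf_zero (z : V) (A : List V) : lf (z :: A) 0 = z := by
  have := lf_nat z A 0 (by omega)
  simpa using this

theorem cyc_list {z : V} {A : List V} (h : CL z A) : Cyc (A.length + 1) (lf (z :: A)) := by
  obtain ⟨h2, nd, ch⟩ := h
  set k := A.length + 1 with hk
  have hkp : (0 : ℤ) < (k : ℤ) := by omega
  have hex : ∀ i : ℤ, ∃ r : ℕ, r < k ∧ i % (k : ℤ) = r ∧ lf (z :: A) i = lf (z :: A) (r : ℤ) := by
    intro i
    have h1 := Int.emod_nonneg i hkp.ne'
    have h3 := Int.emod_lt_of_pos i hkp
    refine ⟨(i % k).toNat, by omega, by omega, ?_⟩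
    have e1 : (((i % k).toNat : ℕ) : ℤ) = i % k := Int.toNat_of_nonneg h1
    rw [e1, lf_emod]
  refine ⟨by omega, ?_, ?_⟩
  · intro i j
    obtain ⟨r, hr, hi, ei⟩ := hex i
    obtain ⟨s, hs, hj, ej⟩ := hex j
    rw [ei, ej, lf_nat z A r hr, lf_nat z A s hs, nd.getElem_inj_iff]
    have h4 : (k : ℤ) ∣ i - j ↔ i % (k : ℤ) = j % (k : ℤ) := by
      rw [Int.emod_eq_emod_iff_emod_sub_eq_zero, Int.dvd_iff_emod_eq_zero]
    rw [h4, hi, hj]
    omega
  · intro i
    obtain ⟨r, hr, hi, ei⟩ := hex i
    rw [List.isChain_iff_getElem] at ch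
    have hc := ch r (by simp; omega)
    have e2 : ∀ (j : ℕ) (hj : j < k) (hj2 : j < (z :: (A ++ [z])).length),
        (z :: (A ++ [z]))[j]'hj2 = lf (z :: A) (j : ℤ) := by
      intro j hj hj2
      rw [lf_nat z A j hj]
      have e : z :: (A ++ [z]) = (z :: A) ++ [z] := rfl
      simp only [e]
      rw [List.getElem_append_left]
    rw [e2 r hr] at hc
    rw [ei]
    rcases Nat.lt_or_ge (r + 1) k with h5 | h5
    · rw [e2 (r + 1) h5] at hc
      have e3 : lf (z :: A) (i + 1) = lf (z :: A) ((r + 1 : ℕ) : ℤ) := by
        rw [← lf_emod z A (i + 1), ← hk]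
        congr 1
        push_cast
        rw [Int.add_emod, hi, Int.emod_eq_of_lt (a := 1) (by norm_num) (by omega)]
        rw [Int.emod_eq_of_lt (by omega) (by omega)]
      rw [e3]
      exact adj_symm' hc
    · have h6 : r + 1 = k := by omega
      have e4 : (z :: (A ++ [z]))[r + 1]'(by simp; omega) = z := by
        have e : z :: (A ++ [z]) = (z :: A) ++ [z] := rfl
        simp only [e]
        rw [List.getElem_append_right (by simp; omega)]
        simp
      rw [e4] at hc
      have e3 : lf (z :: A) (i + 1) = z := by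
        rw [← lf_emod z A (i + 1), ← hk]
        have : (i + 1) % (k : ℤ) = 0 := by
          rw [Int.add_emod, hi, Int.emod_eq_of_lt (a := 1) (by norm_num) (by omega)]
          have : ((r : ℤ) + 1) = k := by omega
          rw [this, Int.emod_self]
        rw [this, lf_zero]
      rw [e3]
      exact adj_symm' hc

theorem verts_loopOf {z : V} {A : List V} (h : CL z A) (v : V) :
    v ∈ verts (loopOf z A) ↔ v ∈ z :: A := by
  unfold loopOf
  rw [(cyc_list h).mem_verts]
  constructor
  · rintro ⟨i, rfl⟩
    have h1 := Int.emod_nonneg i (b := ((A.length + 1 : ℕ) : ℤ)) (by omega)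
    have h3 := Int.emod_lt_of_pos i (b := ((A.length + 1 : ℕ) : ℤ)) (by omega)
    rw [← lf_emod]
    have e1 : (((i % ((A.length + 1 : ℕ) : ℤ)).toNat : ℕ) : ℤ) = i % ((A.length + 1 : ℕ) : ℤ) :=
      Int.toNat_of_nonneg h1
    rw [← e1, lf_nat z A _ (by omega)]
    exact List.getElem_mem _
  · intro hv
    obtain ⟨j, hj, rfl⟩ := List.getElem_of_mem hv
    exact ⟨j, (lf_nat z A j (by simpa using hj)).symm⟩

theorem card_loopOf {z : V} {A : List V} (h : CL z A) : (loopOf z A).card = A.length + 1 :=
  (cyc_list h).card_E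

/-- list of a parametrised loop -/
def lst (k : ℕ) (f : ℤ → V) : List V := (List.range (k - 1)).map (fun i : ℕ => f ((i : ℤ) + 1))

theorem length_lst (k : ℕ) (f : ℤ → V) : (lst k f).length = k - 1 := by simp [lst]

theorem getElem_lst (k : ℕ) (f : ℤ → V) (i : ℕ) (hi : i < (lst k f).length) :
    (lst k f)[i] = f ((i : ℤ) + 1) := by
  have h : (lst k f)[i]? = some (f ((i : ℤ) + 1)) := by
    rw [length_lst] at hi
    unfold lst
    rw [List.getElem?_map, List.getElem?_range hi]
    rfl
  rw [List.getElem?_eq_getElem hi] at h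
  exact Option.some.inj h

theorem lf_lst {k : ℕ} {f : ℤ → V} (h : Cyc k f) : lf (f 0 :: lst k f) = f := by
  funext i
  have h3 := h.h3
  have hl : (lst k f).length + 1 = k := by rw [length_lst]; omega
  rw [← lf_emod, hl, ← h.emod i]
  have h1 := Int.emod_nonneg i h.pos.ne'
  have h4 := Int.emod_lt_of_pos i h.pos
  have e1 : (((i % (k : ℤ)).toNat : ℕ) : ℤ) = i % (k : ℤ) := Int.toNat_of_nonneg h1
  rw [← e1]
  generalize (i % (k : ℤ)).toNat = r at e1
  rw [lf_nat _ _ r (by omega)]
  cases r with
  | zero => simp
  | succ r =>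
    rw [List.getElem_cons_succ, getElem_lst]
    push_cast
    rfl

theorem loopOf_lst {k : ℕ} {f : ℤ → V} (h : Cyc k f) : loopOf (f 0) (lst k f) = E k f := by
  unfold loopOf
  rw [lf_lst h, length_lst]
  have := h.h3
  rw [Nat.sub_add_cancel (by omega)]

theorem cl_lst {k : ℕ} {f : ℤ → V} (h : Cyc k f) : CL (f 0) (lst k f) := by
  have h3 := h.h3
  have hu : ∀ (i : ℕ) (hi : i < (f 0 :: lst k f).length), (f 0 :: lst k f)[i] = f i := by
    intro i hi
    cases i with
    | zero => simp
    | succ r =>
      rw [List.getElem_cons_succ, getElem_lst]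
      push_cast
      rfl
  refine ⟨by rw [length_lst]; omega, ?_, ?_⟩
  · rw [List.nodup_iff_injective_getElem]
    intro i j hij
    simp only [hu] at hij
    have h4 := (h.inj _ _).1 hij
    have hi := i.2
    have hj := j.2
    simp only [List.length_cons, length_lst] at hi hj
    have h5 := Int.eq_zero_of_abs_lt_dvd h4 (by rw [abs_lt]; omega)
    exact Fin.ext (by omega)
  · rw [List.isChain_iff_getElem]
    intro i hi
    simp only [List.length_cons, List.length_append, length_lst, List.length_nil] at hi
    have hw : ∀ (i : ℕ) (hi : i < (f 0 :: (lst k f ++ [f 0])).length),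
        (f 0 :: (lst k f ++ [f 0]))[i] = f i := by
      intro i hi
      have e : f 0 :: (lst k f ++ [f 0]) = (f 0 :: lst k f) ++ [f 0] := rfl
      simp only [e]
      rcases Nat.lt_or_ge i (f 0 :: lst k f).length with h5 | h5
      · rw [List.getElem_append_left h5, hu]
      · rw [List.getElem_append_right h5]
        simp only [List.length_cons, List.length_append, length_lst, List.length_nil] at hi h5
        simp only [List.getElem_singleton]
        apply h.per
        have : i = k := by omega
        rw [this]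
        exact ⟨-1, by ring⟩
    rw [hw, hw]
    push_cast
    exact adj_symm' (h.adj i)

/-- every loop through `z` has a closed list starting at `z` -/
theorem exists_list {c : Finset (Sym2 V)} (hc : IsLoop c) {z : V} (hz : z ∈ verts c) :
    ∃ A, CL z A ∧ loopOf z A = c := by
  obtain ⟨k, f, h, rfl⟩ := isLoop_iff.1 hc
  obtain ⟨t, rfl⟩ := (h.mem_verts z).1 hz
  have h' := h.shift t
  have e : (fun i => f (i + t)) 0 = f t := by simp
  refine ⟨lst k (fun i => f (i + t)), ?_, ?_⟩
  · rw [← e]
    exact cl_lst h'
  · rw [← e, loopOf_lst h', h.E_shift]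

theorem CL.ext {A A' : List V} {z : V} (hl : A'.length = A.length)
    (h : lf (z :: A') = lf (z :: A)) : A' = A := by
  apply List.ext_getElem hl
  intro i h1 h2
  have e1 := lf_nat z A (i + 1) (by omega)
  have e2 := lf_nat z A' (i + 1) (by omega)
  rw [List.getElem_cons_succ] at e1 e2
  rw [← e1, ← e2, h]

/-- a loop has exactly two closed lists starting at `z` -/
theorem two_lists {z : V} {A A' : List V} (h : CL z A) (h' : CL z A')
    (he : loopOf z A = loopOf z A') : A' = A ∨ A' = A.reverse := by
  unfold loopOf at he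
  obtain ⟨hk, h1⟩ := (cyc_list h).two (cyc_list h') he (by rw [lf_zero, lf_zero])
  have hl : A'.length = A.length := by omega
  rcases h1 with h1 | h1
  · exact Or.inl (CL.ext hl h1)
  · right
    apply List.ext_getElem (by rw [List.length_reverse]; exact hl)
    intro i hi1 hi2
    rw [List.length_reverse] at hi2
    rw [List.getElem_reverse]
    have e2 := lf_nat z A' (i + 1) (by omega)
    rw [List.getElem_cons_succ] at e2
    have e1 := lf_nat z A (A.length - 1 - i + 1) (by omega)
    rw [List.getElem_cons_succ] at e1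
    rw [← e1, ← e2, h1]
    apply (cyc_list h).per
    refine ⟨-1, ?_⟩
    push_cast
    omega

theorem CL.rev {z : V} {A : List V} (h : CL z A) : CL z A.reverse := by
  obtain ⟨h2, nd, ch⟩ := h
  refine ⟨by rw [List.length_reverse]; exact h2, ?_, ?_⟩
  · rw [List.nodup_cons] at nd ⊢
    rw [List.mem_reverse, List.nodup_reverse]
    exact nd
  · have e : z :: (A.reverse ++ [z]) = (z :: (A ++ [z])).reverse := by simp
    rw [e, List.isChain_reverse]
    exact ch.imp (fun a b hab => adj_symm' hab)

theorem CL.ne_rev {z : V} {A : List V} (h : CL z A) : A ≠ A.reverse := by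
  intro he
  obtain ⟨h2, nd, ch⟩ := h
  have hA := (List.nodup_cons.1 nd).2
  have h1 : A[0]'(by omega) = A[A.length - 1]'(by omega) := by
    have h3 : A[0]'(by omega) = (A.reverse)[0]'(by rw [List.length_reverse]; omega) := by
      congr 1
    rw [h3, List.getElem_reverse]
    simp
  have := (hA.getElem_inj_iff).1 h1
  omega

theorem loopOf_rev {z : V} {A : List V} (h : CL z A) : loopOf z A.reverse = loopOf z A := by
  have hE : loopOf z A = E (A.length + 1) (fun i => lf (z :: A) (-i)) := by
    unfold loopOf
    rw [(cyc_list h).E_neg]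
  have e : loopOf z (lst (A.length + 1) (fun i => lf (z :: A) (-i))) = loopOf z A := by
    have h0 : lf (z :: A) (-0) = z := by
      rw [neg_zero]
      exact lf_zero z A
    have h1 := loopOf_lst (cyc_list h).neg
    rw [h0] at h1
    rw [h1, ← hE]
  have e2 : A.reverse = lst (A.length + 1) (fun i => lf (z :: A) (-i)) := by
    apply List.ext_getElem
    · rw [List.length_reverse, length_lst]; omega
    · intro i h1 h2
      rw [List.length_reverse] at h1
      rw [getElem_lst, List.getElem_reverse]
      have e1 := lf_nat z A (A.length - 1 - i + 1) (by omega)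
      rw [List.getElem_cons_succ] at e1
      rw [← e1]
      apply (cyc_list h).per
      refine ⟨1, ?_⟩
      push_cast
      omega
  rw [e2, e]

end TH508.ON
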