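import Pool.Agent.H978R2.Hex.Trap
import Pool.Agent.H978R2.Hex.MassLemmas
import Pool.Agent.TH508.ON.LC

set_option autoImplicit false

/-! Trapped walks: attaching a loop to the head of a free walk. -/

namespace TH508.ON

open H978R2.Hex Complex

/-- all walks of a finite domain -/
def AP (S : Finset V) : Finset (List V) :=
  (Finset.range (S.card + 1)).biUnion (P (fun v => v ∈ S))

theorem mem_AP {S : Finset V} {l : List V} : l ∈ AP S ↔ Val (fun v => v ∈ S) l := by
  unfold AP
  rw [Finset.mem_biUnion]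
  constructor
  · rintro ⟨m, _, hl⟩
    exact (mem_P.1 hl).1
  · intro hl
    have h2 : 2 ≤ l.length := by
      match l, hl with
      | [], hl => exact hl.elim
      | [_], hl => exact hl.elim
      | _ :: _ :: _, _ => simp
    obtain ⟨t1, t2⟩ := Val_tail hl
    have hnd : l.tail.dropLast.Nodup := t1.sublist (List.dropLast_sublist _)
    have hsub : l.tail.dropLast.toFinset ⊆ S := by
      intro v hv
      rw [List.mem_toFinset] at hv
      exact t2 v hv
    have hc := Finset.card_le_card hsub
    rw [List.toFinset_card_of_nodup hnd, List.length_dropLast, List.length_tail] at hc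
    refine ⟨l.length - 2, Finset.mem_range.2 (by omega), mem_P.2 ⟨hl, by omega⟩⟩

def free (S : Finset V) : Finset (List V) :=
  (AP S).filter (fun l => l.headD (0, 0) ∈ S ∧ l.headD (0, 0) ∉ l.tail)

def exits (S : Finset V) : Finset (List V) :=
  (AP S).filter (fun l => l.headD (0, 0) ∉ S)

def trap (S : Finset V) : Finset (List V) :=
  (AP S).filter (fun l => l.headD (0, 0) ∈ S ∧ l.headD (0, 0) ∈ l.tail)

theorem val_suffix {Om : V → Prop} {y x : V} {t : List V} : ∀ {X : List V},
    Val Om (X ++ y :: x :: t) → Val Om (y :: x :: t)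
  | [], h => h
  | u :: X, h => by
    apply val_suffix (X := X)
    match X, h with
    | [], h =>
      match t, h with
      | [], h => exact h.2.2.2.2
      | _ :: _, h => exact h.2.2.2.2
    | [v], h => exact h.2.2.2.2
    | v :: w :: X, h => exact h.2.2.2.2

theorem free_form {S : Finset V} {l : List V} (h : l ∈ free S) :
    ∃ z q B, l = z :: q :: B ∧ Good (fun v => v ∈ S) z (q :: B) ∧ z ∈ S ∧ z ∉ q :: B := by
  unfold free at h
  rw [Finset.mem_filter, mem_AP] at h
  obtain ⟨h1, h2, h3⟩ := h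
  match l, h1, h2, h3 with
  | [], h1, _, _ => exact h1.elim
  | [_], h1, _, _ => exact h1.elim
  | z :: q :: B, h1, h2, h3 =>
    exact ⟨z, q, B, rfl, (val_iff z (q :: B)).1 h1, h2, h3⟩

theorem mem_free {S : Finset V} {z q : V} {B : List V} :
    z :: q :: B ∈ free S ↔ Good (fun v => v ∈ S) z (q :: B) ∧ z ∈ S ∧ z ∉ q :: B := by
  unfold free
  rw [Finset.mem_filter, mem_AP, val_iff]
  simp only [List.headD_cons, List.tail_cons]

theorem cl_form {z : V} {A : List V} (h : CL z A) : ∃ e M a, A = e :: (M ++ [a]) := by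
  have h2 := h.h2
  match A, h2 with
  | e :: A', h2 =>
    rcases List.eq_nil_or_concat A' with h1 | ⟨M, a, h1⟩
    · rw [h1] at h2
      simp at h2
    · exact ⟨e, M, a, by rw [h1, List.concat_eq_append]⟩

/-- gluing a closed list to a free walk -/
theorem good_glue {S : Finset V} {z q : V} {A B : List V}
    (h0 : Good (fun v => v ∈ S) z (q :: B)) (hz : z ∈ S) (hzt : z ∉ q :: B) (hA : CL z A)
    (hd : ∀ v ∈ A, v ∈ S ∧ v ∉ q :: B) :
    Good (fun v => v ∈ S) z (A ++ z :: q :: B) := by
  have hn := List.nodup_cons.1 hA.nd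
  refine ⟨?_, ?_, ?_, ?_, ?_⟩
  · refine h0.suff.trans ?_
    have e : z :: (A ++ z :: q :: B) = (z :: A) ++ z :: q :: B := rfl
    rw [e]
    exact List.suffix_append _ _
  · have e : z :: (A ++ z :: q :: B) = (z :: A) ++ z :: q :: B := rfl
    rw [e, List.isChain_split]
    exact ⟨hA.ch, h0.chain⟩
  · rw [List.nodup_append]
    refine ⟨hn.2, List.nodup_cons.2 ⟨hzt, h0.nodup⟩, ?_⟩
    intro a ha b hb hab
    subst hab
    rcases List.mem_cons.1 hb with rfl | hb
    · exact hn.1 ha
    · exact (hd a ha).2 hb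
  · intro v hv
    rw [List.dropLast_append_cons, List.mem_append] at hv
    rcases hv with hv | hv
    · exact (hd v hv).1
    · rw [List.dropLast_cons_cons] at hv
      rcases List.mem_cons.1 hv with rfl | hv
      · exact hz
      · exact h0.om v hv
  · intro y x r h1 h2
    obtain ⟨e, M, a, rfl⟩ := cl_form hA
    apply hn.1
    have h3 : x ∈ e :: (M ++ [a]) := by
      simp only [List.cons_append, List.cons.injEq] at h1
      have h4 := h1.2
      cases M with
      | nil =>
        simp only [List.nil_append, List.cons_append, List.cons.injEq] at h4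
        rw [← h4.1]
        simp
      | cons u M' =>
        simp only [List.cons_append, List.cons.injEq] at h4
        rw [← h4.1]
        simp
    rw [h2]
    exact h3

theorem trap_iff {S : Finset V} (hS : ∀ v ∈ S, ¬ Slit v) {l : List V} :
    l ∈ trap S ↔ ∃ z A q B, l = z :: (A ++ z :: q :: B) ∧ (z :: q :: B) ∈ free S ∧ CL z A ∧
      (∀ v ∈ A, v ∈ S ∧ v ∉ q :: B) := by
  constructor
  · intro h
    unfold trap at h
    rw [Finset.mem_filter, mem_AP] at h
    obtain ⟨h1, h2, h3⟩ := h
    match l, h1, h2, h3 with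
    | [], h1, _, _ => exact h1.elim
    | z :: t, h1, h2, h3 =>
      have hg := (val_iff z t).1 h1
      simp only [List.headD_cons, List.tail_cons] at h2 h3
      obtain ⟨e, M, a, q, B, rfl⟩ := trap_decomp (Om := fun v => v ∈ S) hS hg h2 h3
      have hn := hg.nodup
      rw [List.nodup_append] at hn
      obtain ⟨n1, n2, n3⟩ := hn
      have hzA : z ∉ e :: (M ++ [a]) := fun hz => n3 z hz z (by simp) rfl
      have hch := hg.chain
      rw [← List.cons_append, List.isChain_split] at hch
      refine ⟨z, e :: (M ++ [a]), q, B, rfl, ?_, ⟨by simp, List.nodup_cons.2 ⟨hzA, n1⟩, hch.1⟩,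
        ?_⟩
      · rw [mem_free, ← val_iff]
        exact ⟨val_suffix (X := z :: (e :: (M ++ [a]))) h1, h2, (List.nodup_cons.1 n2).1⟩
      · intro v hv
        refine ⟨?_, fun hvB => n3 v hv v (List.mem_cons_of_mem _ hvB) rfl⟩
        apply hg.om
        rw [List.dropLast_append_cons, List.mem_append]
        exact Or.inl hv
  · rintro ⟨z, A, q, B, rfl, h0, hA, hd⟩
    obtain ⟨hg, hz, hzt⟩ := mem_free.1 h0
    unfold trap
    rw [Finset.mem_filter, mem_AP, val_iff]
    refine ⟨good_glue hg hz hzt hA hd, hz, ?_⟩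
    simp

/-- windings of the two walks around a loop -/
theorem W_pair {S : Finset V} (hS : ∀ v ∈ S, ¬ Slit v) {z q : V} {A B : List V}
    (h0 : Good (fun v => v ∈ S) z (q :: B)) (hz : z ∈ S) (hzt : z ∉ q :: B) (hA : CL z A)
    (hd : ∀ v ∈ A, v ∈ S ∧ v ∉ q :: B) :
    ∃ s : ℤ, (s = 1 ∨ s = -1) ∧ W (z :: (A ++ z :: q :: B)) = W (z :: q :: B) - 4 * s ∧
      W (z :: (A.reverse ++ z :: q :: B)) = W (z :: q :: B) + 4 * s := by
  have hg := good_glue h0 hz hzt hA hd
  obtain ⟨e, M, a, rfl⟩ := cl_form hA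
  have hg2 := hg.rev
  have hw1 := W_trap (Om := fun v => v ∈ S) hS hg
  have hw2 := W_trap (Om := fun v => v ∈ S) hS hg2
  have hrev : (e :: (M ++ [a])).reverse = a :: (M.reverse ++ [e]) := by simp
  rw [hrev]
  have hce : Adj e z := by
    have := hg.chain
    simp only [List.cons_append] at this
    rw [List.isChain_cons_cons] at this
    exact this.1
  have hca : Adj a z := by
    have := hg2.chain
    simp only [List.cons_append] at this
    rw [List.isChain_cons_cons] at this
    exact this.1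
  have hqz : Adj q z := by
    have := h0.chain
    rw [List.isChain_cons_cons] at this
    exact this.1
  have hqa : q ≠ a := fun h => (hd a (by simp)).2 (by rw [h]; simp)
  have hqe : q ≠ e := fun h => (hd e (by simp)).2 (by rw [h]; simp)
  have hea : a ≠ e := by
    intro h
    have h2 := (List.nodup_cons.1 hA.nd).2
    rw [List.nodup_cons] at h2
    apply h2.1
    rw [← h]
    simp
  have ho := turn_other hqz (adj_symm' hca) (adj_symm' hce) hqa hqe hea
  have hpm := turn_pm hqz (adj_symm' hca) hqa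
  refine ⟨turn q z a, hpm, hw1, ?_⟩
  rw [hw2, ho]
  ring

/-- base and loop of a trapped walk -/
def key : List V → (_ : List V) × Finset (Sym2 V)
  | z :: r => ⟨r.dropWhile (fun v => decide (v ≠ z)), loopOf z (r.takeWhile (fun v => decide (v ≠ z)))⟩
  | [] => ⟨[], ∅⟩

theorem key_eq {z : V} {A B : List V} (hA : z ∉ A) :
    key (z :: (A ++ z :: B)) = ⟨z :: B, loopOf z A⟩ := by
  have h1 : (A ++ z :: B).takeWhile (fun v => decide (v ≠ z)) = A := by
    rw [List.takeWhile_append_of_pos]
    · simp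
    · intro v hv
      simp only [ne_eq, decide_not, Bool.not_eq_eq_eq_not, Bool.not_true, decide_eq_false_iff_not]
      rintro rfl
      exact hA hv
  have h2 : (A ++ z :: B).dropWhile (fun v => decide (v ≠ z)) = z :: B := by
    rw [List.dropWhile_append_of_pos]
    · simp
    · intro v hv
      simp only [ne_eq, decide_not, Bool.not_eq_eq_eq_not, Bool.not_true, decide_eq_false_iff_not]
      rintro rfl
      exact hA hv
  rw [key, h1, h2]

/-- pairs (free walk, loop through its head in the rest of the domain) -/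
noncomputable def TT (S : Finset V) : Finset ((_ : List V) × Finset (Sym2 V)) :=
  (free S).sigma (fun l0 => loopsAt (S \ l0.tail.toFinset) (l0.headD (0, 0)))

theorem mem_loopsAt {S : Finset V} {z : V} {c : Finset (Sym2 V)} :
    c ∈ loopsAt S z ↔ verts c ⊆ S ∧ IsLoop c ∧ z ∈ verts c := by
  unfold loopsAt
  rw [Finset.mem_filter, mem_loops, and_assoc]

theorem mem_TT {S : Finset V} {z q : V} {A B : List V} (hA : CL z A) :
    (⟨z :: q :: B, loopOf z A⟩ : (_ : List V) × Finset (Sym2 V)) ∈ TT S ↔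
      (z :: q :: B) ∈ free S ∧ ∀ v ∈ A, v ∈ S ∧ v ∉ q :: B := by
  unfold TT
  rw [Finset.mem_sigma]
  refine and_congr_right fun h0 => ?_
  simp only [List.headD_cons, List.tail_cons]
  rw [mem_loopsAt]
  obtain ⟨hg, hz, hzt⟩ := mem_free.1 h0
  constructor
  · rintro ⟨h1, -, -⟩ v hv
    have := h1 ((verts_loopOf hA v).2 (List.mem_cons_of_mem _ hv))
    rw [Finset.mem_sdiff, List.mem_toFinset] at this
    exact this
  · intro h
    refine ⟨?_, (cyc_list hA).isLoop, (verts_loopOf hA z).2 List.mem_cons_self⟩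
    intro v hv
    rw [Finset.mem_sdiff, List.mem_toFinset]
    rcases List.mem_cons.1 ((verts_loopOf hA v).1 hv) with rfl | hv
    · exact ⟨hz, hzt⟩
    · exact h v hv

theorem key_maps {S : Finset V} (hS : ∀ v ∈ S, ¬ Slit v) : ∀ l ∈ trap S, key l ∈ TT S := by
  intro l hl
  obtain ⟨z, A, q, B, rfl, h0, hA, hd⟩ := (trap_iff hS).1 hl
  rw [key_eq (List.nodup_cons.1 hA.nd).1, mem_TT hA]
  exact ⟨h0, hd⟩

/-- the fibres have two elements -/
theorem fiber {S : Finset V} (hS : ∀ v ∈ S, ¬ Slit v) {p : (_ : List V) × Finset (Sym2 V)}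
    (hp : p ∈ TT S) : ∃ z A q B, p = ⟨z :: q :: B, loopOf z A⟩ ∧ (z :: q :: B) ∈ free S ∧
      CL z A ∧ (∀ v ∈ A, v ∈ S ∧ v ∉ q :: B) ∧
      (trap S).filter (fun l => key l = p) =
        {z :: (A ++ z :: q :: B), z :: (A.reverse ++ z :: q :: B)} ∧
      z :: (A ++ z :: q :: B) ≠ z :: (A.reverse ++ z :: q :: B) := by
  obtain ⟨l0, c⟩ := p
  have hp' := hp
  unfold TT at hp'
  rw [Finset.mem_sigma] at hp'
  simp only at hp'
  obtain ⟨h0, hc⟩ := hp'
  obtain ⟨z, q, B, rfl, hg, hz, hzt⟩ := free_form h0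
  rw [mem_loopsAt] at hc
  simp only [List.headD_cons, List.tail_cons] at hc
  obtain ⟨A, hA, rfl⟩ := exists_list hc.2.1 hc.2.2
  have hd := ((mem_TT hA).1 hp).2
  have hzA := (List.nodup_cons.1 hA.nd).1
  refine ⟨z, A, q, B, rfl, h0, hA, hd, ?_, ?_⟩
  · ext l
    rw [Finset.mem_filter, Finset.mem_insert, Finset.mem_singleton]
    constructor
    · rintro ⟨h1, h2⟩
      obtain ⟨z', A', q', B', rfl, h0', hA', hd'⟩ := (trap_iff hS).1 h1
      rw [key_eq (List.nodup_cons.1 hA'.nd).1] at h2
      rw [Sigma.mk.injEq] at h2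
      obtain ⟨h3, h4⟩ := h2
      simp only [List.cons.injEq] at h3
      obtain ⟨rfl, rfl, rfl⟩ := h3
      have h4 := eq_of_heq h4
      rcases two_lists hA hA' h4.symm with h5 | h5
      · left; rw [h5]
      · right; rw [h5]
    · have hdr : ∀ v ∈ A.reverse, v ∈ S ∧ v ∉ q :: B := fun v hv => hd v (List.mem_reverse.1 hv)
      rintro (rfl | rfl)
      · exact ⟨(trap_iff hS).2 ⟨z, A, q, B, rfl, h0, hA, hd⟩, key_eq hzA⟩
      · refine ⟨(trap_iff hS).2 ⟨z, A.reverse, q, B, rfl, h0, hA.rev, hdr⟩, ?_⟩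
        rw [key_eq (fun h => hzA (List.mem_reverse.1 h)), loopOf_rev hA]
  · intro h
    rw [List.cons.injEq] at h
    exact hA.ne_rev (List.append_cancel_right h.2)

end TH508.ON
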