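import Pool.Agent.H978R2.Hex.Ident
import Pool.Agent.TH508.ON.TrapO

set_option autoImplicit false

/-! The exact identity for the loop O(n) model in a finite domain. -/

namespace TH508.ON

open H978R2.Hex Complex

/-- phase -/
noncomputable def ph (t : ℝ) (l : List V) : ℂ := exp ((W l : ℂ) * (t : ℂ) * I)

/-- weight with phase -/
noncomputable def F (n x t : ℝ) (S : Finset V) (l : List V) : ℂ :=
  ((x ^ l.length * ZL n x (S \ l.tail.toFinset) : ℝ) : ℂ) * ph t l

theorem exp_pair (t : ℝ) (w s : ℤ) :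
    exp (((w - s : ℤ) : ℂ) * (t : ℂ) * I) + exp (((w + s : ℤ) : ℂ) * (t : ℂ) * I) =
      ((2 * Real.cos (s * t) : ℝ) : ℂ) * exp ((w : ℂ) * (t : ℂ) * I) := by
  have e1 : ((w - s : ℤ) : ℂ) * (t : ℂ) * I = (w : ℂ) * (t : ℂ) * I + (-((s * t : ℂ)) * I) := by
    push_cast; ring
  have e2 : ((w + s : ℤ) : ℂ) * (t : ℂ) * I = (w : ℂ) * (t : ℂ) * I + ((s * t : ℂ) * I) := by
    push_cast; ring
  rw [e1, e2, Complex.exp_add, Complex.exp_add]
  have e3 : ((2 * Real.cos (s * t) : ℝ) : ℂ) = exp ((s * t : ℂ) * I) + exp (-((s * t : ℂ)) * I) := by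
    push_cast
    rw [Complex.cos]
    ring
  rw [e3]
  ring

theorem fiber_sum (n x t : ℝ) {S : Finset V} (hS : ∀ v ∈ S, ¬ Slit v)
    {p : (_ : List V) × Finset (Sym2 V)} (hp : p ∈ TT S) :
    ∑ l ∈ (trap S).filter (fun l => key l = p), F n x t S l =
      ((x ^ p.1.length * (x ^ p.2.card * ZL n x ((S \ p.1.tail.toFinset) \ verts p.2)) *
        (2 * Real.cos (4 * t)) : ℝ) : ℂ) * ph t p.1 := by
  obtain ⟨z, A, q, B, rfl, h0, hA, hd, hf, hne⟩ := fiber hS hp
  obtain ⟨hg, hz, hzt⟩ := mem_free.1 h0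
  rw [hf, Finset.sum_pair hne]
  obtain ⟨s, hs, w1, w2⟩ := W_pair hS hg hz hzt hA hd
  have hset : ∀ A' : List V, (∀ v, v ∈ A' ↔ v ∈ A) →
      S \ (z :: (A' ++ z :: q :: B)).tail.toFinset =
        (S \ (z :: q :: B).tail.toFinset) \ verts (loopOf z A) := by
    intro A' hA'
    ext v
    simp only [List.tail_cons, Finset.mem_sdiff, List.mem_toFinset, verts_loopOf hA, List.mem_append,
      List.mem_cons, hA']
    tauto
  have hlen : ∀ A' : List V, A'.length = A.length →
      x ^ (z :: (A' ++ z :: q :: B)).length =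
        x ^ (z :: q :: B).length * x ^ (loopOf z A).card := by
    intro A' hA'
    rw [← pow_add, card_loopOf hA]
    congr 1
    simp only [List.length_cons, List.length_append, hA']
    ring
  unfold F ph
  rw [hset A (fun _ => Iff.rfl), hset A.reverse (fun _ => List.mem_reverse), hlen A rfl,
    hlen A.reverse List.length_reverse, w1, w2]
  simp only
  have hc : (2 * Real.cos (4 * t) : ℝ) = 2 * Real.cos (((4 * s : ℤ) : ℝ) * t) := by
    rcases hs with rfl | rfl
    · norm_num
    · have : (((4 * (-1) : ℤ) : ℝ) * t) = -(4 * t) := by push_cast; ring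
      rw [this, Real.cos_neg]
  have h := exp_pair t (W (z :: q :: B)) (4 * s)
  rw [← mul_add, h, hc]
  push_cast
  ring

theorem trap_sum (n x t : ℝ) (hn : n = -2 * Real.cos (4 * t)) {S : Finset V}
    (hS : ∀ v ∈ S, ¬ Slit v) :
    ∑ l ∈ trap S, F n x t S l = ∑ l ∈ free S,
      ((x ^ l.length * (ZL n x (S \ l.toFinset) - ZL n x (S \ l.tail.toFinset)) : ℝ) : ℂ) *
        ph t l := by
  rw [← Finset.sum_fiberwise_of_maps_to (key_maps hS)]
  rw [Finset.sum_congr rfl (fun p hp => fiber_sum n x t hS hp)]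
  unfold TT
  rw [Finset.sum_sigma]
  refine Finset.sum_congr rfl fun l hl => ?_
  obtain ⟨z, q, B, rfl, hg, hz, hzt⟩ := free_form hl
  simp only
  rw [← Finset.sum_mul, ← Complex.ofReal_sum]
  congr 2
  have hr := ZL_rec n x (S \ (z :: q :: B).tail.toFinset) z
  have he : (S \ (z :: q :: B).tail.toFinset).erase z = S \ (z :: q :: B).toFinset := by
    ext v
    simp only [List.tail_cons, Finset.mem_erase, Finset.mem_sdiff, List.mem_toFinset,
      List.mem_cons]
    tauto
  rw [he] at hr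
  have hh : (z :: q :: B).headD (0, 0) = z := rfl
  rw [hh]
  have e1 : ∑ c ∈ loopsAt (S \ (z :: q :: B).tail.toFinset) z,
      x ^ (z :: q :: B).length * (x ^ c.card *
        ZL n x ((S \ (z :: q :: B).tail.toFinset) \ verts c)) * (2 * Real.cos (4 * t)) =
      - (x ^ (z :: q :: B).length *
        ∑ c ∈ loopsAt (S \ (z :: q :: B).tail.toFinset) z,
          n * x ^ c.card * ZL n x ((S \ (z :: q :: B).tail.toFinset) \ verts c)) := by
    rw [Finset.mul_sum, ← Finset.sum_neg_distrib]
    refine Finset.sum_congr rfl fun c _ => ?_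
    rw [hn]
    ring
  rw [e1]
  linear_combination (x ^ (z :: q :: B).length) * hr

theorem AP_eq {S : Finset V} : AP S = insert [((1, 0) : V), (0, 0)]
    ((free S).biUnion (fun l => ((nbrs (l.headD (0, 0))).erase (l.tail.headD (0, 0))).image
      (fun z' => z' :: l))) := by
  ext l
  rw [mem_AP, Finset.mem_insert, Finset.mem_biUnion]
  constructor
  · intro h
    match l, h with
    | [], h => exact h.elim
    | [_], h => exact h.elim
    | [z, y], h =>
      obtain ⟨rfl, rfl⟩ := h
      exact Or.inl rfl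
    | z :: y :: x :: t, h =>
      obtain ⟨h1, h2, h3, h4, h5⟩ := h
      right
      refine ⟨y :: x :: t, mem_free.2 ⟨(val_iff _ _).1 h5, h3, h4⟩, ?_⟩
      rw [Finset.mem_image]
      exact ⟨z, Finset.mem_erase.2 ⟨h2, mem_nbrs'.2 h1⟩, rfl⟩
  · rintro (rfl | ⟨l', h1, h2⟩)
    · exact ⟨rfl, rfl⟩
    · obtain ⟨z, q, B, rfl, hg, hz, hzt⟩ := free_form h1
      rw [Finset.mem_image] at h2
      obtain ⟨z', hz', rfl⟩ := h2
      obtain ⟨h3, h4⟩ := Finset.mem_erase.1 hz'
      exact ⟨mem_nbrs'.1 h4, h3, hz, hzt, (val_iff _ _).2 hg⟩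

theorem two_children (t : ℝ) {y z : V} (h : Adj y z) (l : List V) :
    ∑ z' ∈ (nbrs z).erase y, ph t (z' :: z :: y :: l) =
      ((2 * Real.cos t : ℝ) : ℂ) * ph t (z :: y :: l) := by
  have hy : y ∈ nbrs z := mem_nbrs'.2 (adj_symm' h)
  have hcard : ((nbrs z).erase y).card = 2 := by
    rw [Finset.card_erase_of_mem hy, card_nbrs]
  obtain ⟨a, b, hab, hE⟩ := Finset.card_eq_two.1 hcard
  have ha : a ∈ (nbrs z).erase y := by rw [hE]; simp
  have hb : b ∈ (nbrs z).erase y := by rw [hE]; simp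
  rw [Finset.mem_erase] at ha hb
  have ha2 := mem_nbrs'.1 ha.2
  have hb2 := mem_nbrs'.1 hb.2
  have ho := turn_other h ha2 hb2 (Ne.symm ha.1) (Ne.symm hb.1) hab
  have hpm := turn_pm h ha2 (Ne.symm ha.1)
  rw [hE, Finset.sum_pair hab]
  unfold ph
  have hW : ∀ u : V, W (u :: z :: y :: l) = turn y z u + W (z :: y :: l) := fun u => rfl
  rw [hW, hW]
  have hb3 : turn y z b = - turn y z a := by rw [ho]; ring
  rw [hb3]
  have h1 := exp_pair t (W (z :: y :: l)) 1
  simp only [Int.cast_one, one_mul] at h1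
  rw [← h1]
  rcases hpm with h2 | h2
  · rw [h2, add_comm]
    congr 4
    · push_cast; ring
    · push_cast; ring
  · rw [h2]
    congr 4
    · push_cast; ring
    · push_cast; ring

theorem child_sum (n x t : ℝ) (hx : x * (2 * Real.cos t) = 1) {S : Finset V} :
    ∑ l ∈ AP S, F n x t S l = ((x ^ 2 * ZL n x (S \ {((0, 0) : V)}) : ℝ) : ℂ) +
      ∑ l ∈ free S, ((x ^ l.length * ZL n x (S \ l.toFinset) : ℝ) : ℂ) * ph t l := by
  rw [AP_eq, Finset.sum_insert, Finset.sum_biUnion]
  · congr 1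
    · unfold F ph
      simp [W]
    · refine Finset.sum_congr rfl fun l hl => ?_
      obtain ⟨z, q, B, rfl, hg, hz, hzt⟩ := free_form hl
      rw [Finset.sum_image (by intro a _ b _ h; simpa using h)]
      have hc := hg.chain
      rw [List.isChain_cons_cons] at hc
      have h2 := two_children t hc.1 B
      have e1 : ∀ z' ∈ (nbrs ((z :: q :: B).headD (0, 0))).erase ((z :: q :: B).tail.headD (0, 0)),
          F n x t S (z' :: z :: q :: B) =
          ((x ^ (z :: q :: B).length * x * ZL n x (S \ (z :: q :: B).toFinset) : ℝ) : ℂ) *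
            ph t (z' :: z :: q :: B) := by
        intro z' _
        unfold F
        rw [List.tail_cons, List.length_cons, pow_succ]
      rw [Finset.sum_congr rfl e1, ← Finset.mul_sum]
      have e2 : (nbrs ((z :: q :: B).headD (0, 0))).erase ((z :: q :: B).tail.headD (0, 0)) =
          (nbrs z).erase q := rfl
      rw [e2, h2, ← mul_assoc, ← Complex.ofReal_mul]
      congr 2
      linear_combination (x ^ (z :: q :: B).length * ZL n x (S \ (z :: q :: B).toFinset)) * hx
  · intro l1 _ l2 _ hne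
    simp only [Function.onFun]
    rw [Finset.disjoint_left]
    intro l h1 h2
    simp only [Finset.mem_image] at h1 h2
    obtain ⟨a, _, ha⟩ := h1
    obtain ⟨b, _, hb⟩ := h2
    apply hne
    have := ha.trans hb.symm
    simpa using (List.cons.inj this).2
  · intro h
    rw [Finset.mem_biUnion] at h
    obtain ⟨l, hl, h⟩ := h
    obtain ⟨z, q, B, rfl, hg, hz, hzt⟩ := free_form hl
    rw [Finset.mem_image] at h
    obtain ⟨z', _, h⟩ := h
    simp at h

theorem split_AP (G : List V → ℂ) (S : Finset V) :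
    ∑ l ∈ AP S, G l = ∑ l ∈ free S, G l + ∑ l ∈ trap S, G l + ∑ l ∈ exits S, G l := by
  rw [← Finset.sum_filter_add_sum_filter_not (AP S) (fun l => l.headD (0, 0) ∈ S)]
  unfold exits
  congr 1
  rw [← Finset.sum_filter_add_sum_filter_not ((AP S).filter (fun l => l.headD (0, 0) ∈ S))
    (fun l => l.headD (0, 0) ∉ l.tail)]
  rw [Finset.filter_filter, Finset.filter_filter]
  unfold free trap
  congr 1
  refine Finset.sum_congr ?_ (fun _ _ => rfl)
  refine Finset.filter_congr fun l _ => ?_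
  rw [not_not]

/-- **Exact identity** of the loop O(n) model in a finite subset of the slit plane. -/
theorem ident_on (n x t : ℝ) (hn : n = -2 * Real.cos (4 * t)) (hx : x * (2 * Real.cos t) = 1)
    (S : Finset V) (hS : ∀ v ∈ S, ¬ Slit v) :
    ∑ l ∈ exits S, F n x t S l = ((x ^ 2 * ZL n x S : ℝ) : ℂ) := by
  have h1 := child_sum n x t hx (S := S)
  rw [split_AP, trap_sum n x t hn hS] at h1
  have e0 : S \ {((0, 0) : V)} = S := by
    rw [Finset.sdiff_singleton_eq_erase, Finset.erase_eq_of_notMem]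
    intro h
    exact hS _ h ⟨rfl, le_refl _⟩
  rw [e0] at h1
  have h2 : ∑ l ∈ free S, ((x ^ l.length *
      (ZL n x (S \ l.toFinset) - ZL n x (S \ l.tail.toFinset)) : ℝ) : ℂ) * ph t l =
      ∑ l ∈ free S, ((x ^ l.length * ZL n x (S \ l.toFinset) : ℝ) : ℂ) * ph t l -
      ∑ l ∈ free S, F n x t S l := by
    rw [← Finset.sum_sub_distrib]
    refine Finset.sum_congr rfl fun l _ => ?_
    unfold F
    push_cast
    ring
  rw [h2] at h1
  linear_combination h1

end TH508.ON
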