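import Pool.Agent.H978R3.Wedge.Dom
import Pool.Agent.TH508.ON.Ident

set_option autoImplicit false
set_option linter.unusedSimpArgs false

/-! The winding of the walks which leave a subset of a wedge. -/

namespace TH508.ON

open H978R2.Hex H978R3.Wedge

/-- The lattice wedge of type `(u, w)`, `u = 3, 4, 5`, `w = 2, 3, 4`; its opening is
`60 (u + w - 3)` degrees: `60 (u - 2)` above the horizontal axis and `60 (w - 1)` below. -/
def Wq (u w : ℤ) (v : V) : Prop :=
  (v.2 = 0 → 1 ≤ v.1) ∧ (1 ≤ v.2 → (u = 4 → 2 ≤ v.1 + v.2) ∧ (u = 3 → 1 ≤ v.1 - v.2)) ∧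
    (v.2 ≤ -1 → (w = 3 → 1 ≤ v.1 - v.2) ∧ (w = 2 → 0 ≤ v.1 + v.2))

instance (u w : ℤ) : DecidablePred (Wq u w) := fun v => by unfold Wq; infer_instance

/-- parameters of the truncated wedge -/
def qPar (u w N : ℤ) : Par :=
  { hexPar N with
    a4 := if u = 4 then 2 else -2 * N
    c3 := if u = 3 then 1 else -2 * N + 1
    a2 := if w = 2 then 0 else -2 * N
    c1 := if w = 3 then 1 else -2 * N + 1 }

theorem ok_q (u w N : ℤ) (hN : 1 ≤ N) : Ok (qPar u w N) := by
  constructor <;> simp only [qPar, hexPar] <;> (try split_ifs) <;> omega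

theorem om_q (u w N : ℤ) (hN : 1 ≤ N) (v : V) :
    Om (qPar u w N) v ↔ Wq u w v ∧ Hx N v := by
  unfold Om qPar hexPar Wq Hx
  rcases lt_trichotomy v.2 0 with c | c | c
  · have c1 : ¬ (v.2 = 0) := by omega
    have c2 : ¬ (1 ≤ v.2) := by omega
    have c3 : v.2 ≤ -1 := by omega
    simp only [c1, c2, c3, false_implies, true_implies, true_and, and_true]
    by_cases h2 : w = 2
    · have h3 : ¬ w = 3 := by omega
      simp only [h2, if_true, true_implies, show ¬ ((2 : ℤ) = 3) by norm_num, if_false,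
        false_implies, true_and]
      omega
    · by_cases h3 : w = 3
      · simp only [h3, if_true, true_implies, show ¬ ((3 : ℤ) = 2) by norm_num, if_false,
          false_implies, and_true]
        omega
      · simp only [h2, h3, if_false, false_implies, and_true, true_and]
        omega
  · have c2 : ¬ (1 ≤ v.2) := by omega
    have c3 : ¬ (v.2 ≤ -1) := by omega
    simp only [c, true_implies]
    simp only [show ¬ (1 ≤ (0:ℤ)) by omega, show ¬ ((0:ℤ) ≤ -1) by omega, false_implies,
      and_true, true_and]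
    omega
  · have c1 : ¬ (v.2 = 0) := by omega
    have c2 : 1 ≤ v.2 := by omega
    have c3 : ¬ (v.2 ≤ -1) := by omega
    simp only [c1, c2, c3, false_implies, true_implies, true_and, and_true]
    by_cases h2 : u = 4
    · simp only [h2, if_true, true_implies, show ¬ ((4 : ℤ) = 3) by norm_num, if_false,
        false_implies, and_true]
      omega
    · by_cases h3 : u = 3
      · simp only [h3, if_true, true_implies, show ¬ ((3 : ℤ) = 4) by norm_num, if_false,
          false_implies, true_and]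
        omega
      · simp only [h2, h3, if_false, false_implies, true_and, and_true]
        omega

/-- landing on the slit from below -/
theorem land_below (p : Par) (hp : Ok p) {m : ℕ} {l : List V} (hl : l ∈ P (Om p) m)
    (h : ¬ Om p (l.headD (0, 0))) (hs : Slit (l.headD (0, 0))) (hW : W l = -4) :
    ∃ x : ℤ, x ≤ -1 ∧ Om p (x, -1) := by
  have hO : ∀ v, Om p v → ¬ Slit v := fun v hv => om_not_slit hv
  obtain ⟨z, v, K, rfl, D⟩ := classify (om_base hp) hl h
  simp only [List.headD_cons] at hs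
  have hOv := D.h5 v List.mem_cons_self
  have hv := hO v hOv
  have ha := D.h2
  rw [adj_iff] at ha
  by_cases hz0 : z = (0, 0)
  · have := land_zero hO D hz0
    omega
  · have hz1 : z.1 ≠ 0 := fun e => hz0 (Prod.ext e hs.1)
    have hs' := hs
    unfold Slit at hv hs'
    rcases ha with ha | ha | ha | ha
    · exfalso; omega
    · exfalso; omega
    · refine ⟨v.1, by omega, ?_⟩
      have : v = (v.1, -1) := Prod.ext rfl (by simp only; omega)
      rw [← this]
      exact hOv
    · have := land_slit_above hO D (by omega) (by omega) hs hz0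
      omega

theorem no_five' (u w N : ℤ) (hN : 1 ≤ N) (hu : u = 3 ∨ u = 4) {m : ℕ} {l : List V}
    (hl : l ∈ P (Om (qPar u w N)) m) (h : ¬ Om (qPar u w N) (l.headD (0, 0))) : W l ≠ 5 := by
  apply no_five _ (ok_q u w N hN) _ hl h
  intro x hx hOm
  rw [om_q u w N hN] at hOm
  obtain ⟨⟨-, h2, -⟩, -⟩ := hOm
  simp only at h2
  have := h2 le_rfl
  rcases hu with hu | hu
  · have := this.2 hu; omega
  · have := this.1 hu; omega

theorem no_m4 (u w N : ℤ) (hN : 1 ≤ N) (hw : w = 2 ∨ w = 3) {m : ℕ} {l : List V}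
    (hl : l ∈ P (Om (qPar u w N)) m) (h : ¬ Om (qPar u w N) (l.headD (0, 0)))
    (hs : Slit (l.headD (0, 0))) : W l ≠ -4 := by
  intro hW
  obtain ⟨x, hx, hOm⟩ := land_below _ (ok_q u w N hN) hl h hs hW
  rw [om_q u w N hN] at hOm
  obtain ⟨⟨-, -, h2⟩, -⟩ := hOm
  simp only at h2
  have := h2 le_rfl
  rcases hw with hw | hw
  · have := this.2 hw; omega
  · have := this.1 hw; omega

/-- indices of the walks which leave the truncated wedge -/
theorem idx (u w N : ℤ) (hu : u = 3 ∨ u = 4 ∨ u = 5) (hw : w = 2 ∨ w = 3 ∨ w = 4) (hN : 1 ≤ N)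
    {m : ℕ} {l : List V} (hl : l ∈ P (Om (qPar u w N)) m)
    (h : ¬ Om (qPar u w N) (l.headD (0, 0))) :
    (¬ Wq u w (l.headD (0, 0)) → W l = u ∨ W l = -w) ∧
      (Wq u w (l.headD (0, 0)) → 2 - w ≤ W l ∧ W l ≤ u - 2) := by
  have hb : u = 3 ∨ u = 4 → W l ≠ 5 := fun hu => no_five' u w N hN hu hl h
  have hb2 : w = 2 ∨ w = 3 → Slit (l.headD (0, 0)) → W l ≠ -4 :=
    fun hw hs => no_m4 u w N hN hw hl h hs
  obtain ⟨v, h1, h2, -, -⟩ := land_adj _ (ok_q u w N hN) hl h
  have ho := class_om _ (ok_q u w N hN) m l hl h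
  rw [om_q u w N hN] at h1
  have hx : Wq u w (l.headD (0, 0)) → ¬ Hx N (l.headD (0, 0)) := fun c c2 =>
    h ((om_q u w N hN _).2 ⟨c, c2⟩)
  generalize l.headD (0, 0) = z at *
  clear h
  rw [adj_iff] at h2
  obtain ⟨⟨u1, u2, u3⟩, u4⟩ := h1
  unfold Hx at hx u4
  unfold Wq at hx ⊢
  unfold Out qPar hexPar Slit at ho
  unfold Slit at hb2
  simp only at ho
  generalize W l = k at *
  rcases hu with hu | hu | hu <;> rcases hw with hw | hw | hw <;> subst hu <;> subst hw <;>
    simp only [reduceIte, true_implies, false_implies, and_true, true_and, ne_eq,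
      not_true, not_false_iff, implies_true, true_or,
      or_true, show ¬ ((3 : ℤ) = 4) by norm_num, show ¬ ((4 : ℤ) = 3) by norm_num,
      show ¬ ((5 : ℤ) = 3) by norm_num, show ¬ ((5 : ℤ) = 4) by norm_num,
      show ¬ ((3 : ℤ) = 2) by norm_num, show ¬ ((2 : ℤ) = 3) by norm_num,
      show ¬ ((4 : ℤ) = 2) by norm_num, or_self, false_or, or_false]
      at hb hb2 ho u2 u3 hx ⊢ <;>
    (constructor
     · intro hz
       rcases ho with h | h | h | h | h | h | h | h | h | h <;>
         rcases h2 with h2 | h2 | h2 | h2 <;> omega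
     · intro hz
       have hx := hx hz
       rcases ho with h | h | h | h | h | h | h | h | h | h <;>
         rcases h2 with h2 | h2 | h2 | h2 <;> omega)

end TH508.ON
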