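import Pool.Agent.H978R2.Hex.ValG
import Pool.Agent.TH508.ON.Gas

set_option autoImplicit false

/-! Loops of the honeycomb lattice as sets of edges; partition function of the loop O(n) model. -/

namespace TH508.ON

open H978R2.Hex

/-- `f` runs periodically around a loop with `k` vertices -/
structure Cyc (k : ℕ) (f : ℤ → V) : Prop where
  h3 : 3 ≤ k
  inj : ∀ i j, f i = f j ↔ (k : ℤ) ∣ i - j
  adj : ∀ i, Adj (f i) (f (i + 1))

/-- a loop of the honeycomb lattice, given by its set of edges -/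
def IsLoop (c : Finset (Sym2 V)) : Prop :=
  ∃ (k : ℕ) (f : ℤ → V), Cyc k f ∧ ∀ e, e ∈ c ↔ ∃ i, e = s(f i, f (i + 1))

/-- the vertices of a set of edges -/
def verts (c : Finset (Sym2 V)) : Finset V := c.biUnion Sym2.toFinset

theorem mem_verts {c : Finset (Sym2 V)} {v : V} : v ∈ verts c ↔ ∃ e ∈ c, v ∈ e := by
  unfold verts
  simp [Sym2.mem_toFinset]

open Classical in
/-- all loops inside a finite set of vertices -/
noncomputable def loops (S : Finset V) : Finset (Finset (Sym2 V)) :=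
  S.sym2.powerset.filter IsLoop

theorem mem_loops {S : Finset V} {c : Finset (Sym2 V)} :
    c ∈ loops S ↔ verts c ⊆ S ∧ IsLoop c := by
  classical
  unfold loops
  rw [Finset.mem_filter, Finset.mem_powerset]
  refine and_congr_left fun _ => ?_
  constructor
  · intro h v hv
    obtain ⟨e, he, hve⟩ := mem_verts.1 hv
    exact Finset.mem_sym2_iff.1 (h he) v hve
  · intro h e he
    rw [Finset.mem_sym2_iff]
    intro v hv
    exact h (mem_verts.2 ⟨e, he, hv⟩)

/-- weight of a loop -/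
noncomputable def lw (n x : ℝ) (c : Finset (Sym2 V)) : ℝ := n * x ^ c.card

/-- partition function of the loop O(n) model in `S` -/
noncomputable def ZL (n x : ℝ) (S : Finset V) : ℝ := gasZ (loops S) verts (lw n x)

theorem loops_erase (S : Finset V) (z : V) :
    (loops S).filter (fun c => z ∉ verts c) = loops (S.erase z) := by
  ext c
  rw [Finset.mem_filter, mem_loops, mem_loops]
  constructor
  · rintro ⟨⟨h1, h2⟩, h3⟩
    exact ⟨fun v hv => Finset.mem_erase.2 ⟨fun h => h3 (h ▸ hv), h1 hv⟩, h2⟩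
  · rintro ⟨h1, h2⟩
    exact ⟨⟨fun v hv => Finset.mem_of_mem_erase (h1 hv), h2⟩,
      fun h => (Finset.mem_erase.1 (h1 h)).1 rfl⟩

theorem loops_sdiff (S : Finset V) (c : Finset (Sym2 V)) :
    (loops S).filter (fun d => Disjoint (verts c) (verts d)) = loops (S \ verts c) := by
  ext d
  rw [Finset.mem_filter, mem_loops, mem_loops]
  constructor
  · rintro ⟨⟨h1, h2⟩, h3⟩
    exact ⟨fun v hv => Finset.mem_sdiff.2 ⟨h1 hv, fun h => Finset.disjoint_left.1 h3 h hv⟩, h2⟩
  · rintro ⟨h1, h2⟩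
    exact ⟨⟨fun v hv => (Finset.mem_sdiff.1 (h1 hv)).1, h2⟩,
      Finset.disjoint_left.2 fun v hv hv' => (Finset.mem_sdiff.1 (h1 hv')).2 hv⟩

/-- loops through `z` -/
noncomputable def loopsAt (S : Finset V) (z : V) : Finset (Finset (Sym2 V)) :=
  (loops S).filter (fun c => z ∈ verts c)

theorem ZL_rec (n x : ℝ) (S : Finset V) (z : V) :
    ZL n x S = ZL n x (S.erase z) +
      ∑ c ∈ loopsAt S z, n * x ^ c.card * ZL n x (S \ verts c) := by
  have h := gas_rec (loops S) verts (lw n x) z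
  have e1 : gasZ ((loops S).filter (fun c => z ∉ verts c)) verts (lw n x) =
      ZL n x (S.erase z) := by
    rw [loops_erase]; rfl
  have e2 : ∑ c ∈ (loops S).filter (fun c => z ∈ verts c), lw n x c *
      gasZ ((loops S).filter (fun d => Disjoint (verts c) (verts d))) verts (lw n x) =
      ∑ c ∈ loopsAt S z, n * x ^ c.card * ZL n x (S \ verts c) := by
    refine Finset.sum_congr rfl fun c _ => ?_
    rw [loops_sdiff]
    rfl
  rw [e1, e2] at h
  exact h

theorem ZL_pos {n x : ℝ} (hn : 0 ≤ n) (hx : 0 ≤ x) (S : Finset V) : 1 ≤ ZL n x S := by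
  unfold ZL
  apply gas_pos
  intro c
  unfold lw
  exact mul_nonneg hn (pow_nonneg hx _)

/-! ### edges of a periodic parametrisation -/

/-- the edges -/
def E (k : ℕ) (f : ℤ → V) : Finset (Sym2 V) :=
  (Finset.range k).image (fun i : ℕ => s(f i, f ((i : ℤ) + 1)))

variable {k : ℕ} {f : ℤ → V}

theorem Cyc.per (h : Cyc k f) (i j : ℤ) (hij : (k : ℤ) ∣ i - j) : f i = f j := (h.inj i j).2 hij

theorem Cyc.emod (h : Cyc k f) (i : ℤ) : f (i % k) = f i := by
  apply h.per
  rw [Int.emod_def]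
  exact ⟨-(i / k), by ring⟩

theorem Cyc.pos (h : Cyc k f) : (0 : ℤ) < k := by
  have := h.h3
  omega

theorem Cyc.mem_E (h : Cyc k f) (e : Sym2 V) : e ∈ E k f ↔ ∃ i : ℤ, e = s(f i, f (i + 1)) := by
  unfold E
  rw [Finset.mem_image]
  constructor
  · rintro ⟨i, _, rfl⟩
    exact ⟨i, rfl⟩
  · rintro ⟨i, rfl⟩
    have h1 := Int.emod_nonneg i h.pos.ne'
    have h2 := Int.emod_lt_of_pos i h.pos
    refine ⟨(i % k).toNat, Finset.mem_range.2 (by omega), ?_⟩
    have e1 : (((i % k).toNat : ℕ) : ℤ) = i % k := Int.toNat_of_nonneg h1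
    rw [e1, h.emod i]
    congr 1
    have : f (i % k + 1) = f (i + 1) := by
      apply h.per
      rw [Int.emod_def]
      exact ⟨-(i / k), by ring⟩
    rw [this]

theorem Cyc.isLoop (h : Cyc k f) : IsLoop (E k f) := ⟨k, f, h, h.mem_E⟩

theorem isLoop_iff {c : Finset (Sym2 V)} : IsLoop c ↔ ∃ k f, Cyc k f ∧ c = E k f := by
  constructor
  · rintro ⟨k, f, h, hc⟩
    refine ⟨k, f, h, ?_⟩
    ext e
    rw [hc, h.mem_E]
  · rintro ⟨k, f, h, rfl⟩
    exact h.isLoop

theorem Cyc.mem_verts (h : Cyc k f) (v : V) : v ∈ verts (E k f) ↔ ∃ i : ℤ, v = f i := by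
  rw [TH508.ON.mem_verts]
  constructor
  · rintro ⟨e, he, hv⟩
    obtain ⟨i, rfl⟩ := (h.mem_E e).1 he
    rcases Sym2.mem_iff.1 hv with rfl | rfl
    · exact ⟨i, rfl⟩
    · exact ⟨i + 1, rfl⟩
  · rintro ⟨i, rfl⟩
    exact ⟨_, (h.mem_E _).2 ⟨i, rfl⟩, Sym2.mem_mk_left _ _⟩

/-- neighbours along the loop -/
theorem Cyc.nb (h : Cyc k f) (i : ℤ) (w : V) (hw : s(f i, w) ∈ E k f) :
    w = f (i + 1) ∨ w = f (i - 1) := by
  obtain ⟨j, hj⟩ := (h.mem_E _).1 hw
  rw [Sym2.eq_iff] at hj
  rcases hj with ⟨h1, h2⟩ | ⟨h1, h2⟩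
  · left
    rw [h2]
    apply h.per
    have := (h.inj _ _).1 h1
    obtain ⟨c, hc⟩ := this
    exact ⟨-c, by linarith⟩
  · right
    rw [h2]
    apply h.per
    have := (h.inj _ _).1 h1
    obtain ⟨c, hc⟩ := this
    exact ⟨-c, by linarith⟩

theorem Cyc.card_E (h : Cyc k f) : (E k f).card = k := by
  unfold E
  rw [Finset.card_image_of_injOn, Finset.card_range]
  intro i hi j hj hij
  rw [Finset.mem_coe, Finset.mem_range] at hi hj
  simp only at hij
  rw [Sym2.eq_iff] at hij
  have h3 := h.h3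
  rcases hij with ⟨h1, _⟩ | ⟨h1, h2⟩
  · have := (h.inj _ _).1 h1
    have h4 := Int.eq_zero_of_abs_lt_dvd this (by rw [abs_lt]; omega)
    omega
  · have a1 := (h.inj _ _).1 h1
    have a2 := (h.inj _ _).1 h2
    exfalso
    have a3 : (k : ℤ) ∣ 2 := by
      have := dvd_sub a2 a1
      have e : ((i : ℤ) + 1 - j) - (i - (j + 1)) = 2 := by ring
      rwa [e] at this
    have := Int.le_of_dvd (by norm_num) a3
    omega

theorem Cyc.shift (h : Cyc k f) (t : ℤ) : Cyc k (fun i => f (i + t)) :=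
  ⟨h.h3, fun i j => by
    rw [h.inj]
    have e : i + t - (j + t) = i - j := by ring
    rw [e], fun i => by
    have := h.adj (i + t)
    have e : i + t + 1 = i + 1 + t := by ring
    rwa [e] at this⟩

theorem Cyc.E_shift (h : Cyc k f) (t : ℤ) : E k (fun i => f (i + t)) = E k f := by
  ext e
  rw [(h.shift t).mem_E, h.mem_E]
  constructor
  · rintro ⟨i, rfl⟩
    exact ⟨i + t, by rw [show i + t + 1 = i + 1 + t by ring]⟩
  · rintro ⟨i, rfl⟩
    exact ⟨i - t, by rw [show i - t + t = i by ring, show i - t + 1 + t = i + 1 by ring]⟩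

theorem Cyc.neg (h : Cyc k f) : Cyc k (fun i => f (-i)) :=
  ⟨h.h3, fun i j => by
    rw [h.inj]
    have e : -i - -j = -(i - j) := by ring
    rw [e, dvd_neg], fun i => by
    have := h.adj (-(i + 1))
    have e : -(i + 1) + 1 = -i := by ring
    rw [e] at this
    exact adj_symm' this⟩

theorem Cyc.E_neg (h : Cyc k f) : E k (fun i => f (-i)) = E k f := by
  ext e
  rw [h.neg.mem_E, h.mem_E]
  constructor
  · rintro ⟨i, rfl⟩
    refine ⟨-(i + 1), ?_⟩
    rw [show -(i + 1) + 1 = -i by ring, Sym2.eq_swap]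
  · rintro ⟨i, rfl⟩
    refine ⟨-(i + 1), ?_⟩
    rw [show -(-(i + 1) + 1) = i by ring, show -(-(i + 1)) = i + 1 by ring, Sym2.eq_swap]

theorem Cyc.card_eq {k' : ℕ} {g : ℤ → V} (h : Cyc k f) (h' : Cyc k' g) (he : E k f = E k' g) :
    k = k' := by
  rw [← h.card_E, he, h'.card_E]

/-- same start and same first step -/
theorem Cyc.eq_of_two {g : ℤ → V} (h : Cyc k f) (h' : Cyc k g) (he : E k f = E k g)
    (h0 : f 0 = g 0) (h1 : f 1 = g 1) : f = g := by
  have key : ∀ i : ℕ, f i = g i ∧ f (i + 1) = g (i + 1) := by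
    intro i
    induction i with
    | zero => exact ⟨by simpa using h0, by simpa using h1⟩
    | succ i ih =>
      refine ⟨by push_cast; exact ih.2, ?_⟩
      push_cast
      have h2 : s(g ((i : ℤ) + 1), f ((i : ℤ) + 1 + 1)) ∈ E k g := by
        rw [← he, ← ih.2]
        exact (h.mem_E _).2 ⟨_, rfl⟩
      rcases h'.nb _ _ h2 with h3 | h3
      · exact h3
      · exfalso
        rw [show (i : ℤ) + 1 - 1 = i by ring, ← ih.1] at h3
        have h4 := (h.inj _ _).1 h3
        rw [show (i : ℤ) + 1 + 1 - i = 2 by ring] at h4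
        have := Int.le_of_dvd (by norm_num) h4
        have := h.h3
        omega
  funext i
  rw [← h.emod, ← h'.emod]
  have h1 := Int.emod_nonneg i h.pos.ne'
  have e1 : (((i % k).toNat : ℕ) : ℤ) = i % k := Int.toNat_of_nonneg h1
  rw [← e1]
  exact (key _).1

/-- a loop has only two parametrisations with a given start -/
theorem Cyc.two {k' : ℕ} {g : ℤ → V} (h : Cyc k f) (h' : Cyc k' g) (he : E k f = E k' g)
    (h0 : f 0 = g 0) : k = k' ∧ (g = f ∨ g = fun i => f (-i)) := by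
  have hk := h.card_eq h' he
  subst hk
  refine ⟨rfl, ?_⟩
  have h1 : s(f 0, g 1) ∈ E k f := by
    rw [he, h0]
    refine (h'.mem_E _).2 ⟨0, ?_⟩
    norm_num
  rcases h.nb _ _ h1 with h2 | h2
  · left
    exact (h.eq_of_two h' he h0 (by rw [h2]; norm_num)).symm
  · right
    refine (h.neg.eq_of_two h' (h.E_neg.trans he) (by simpa using h0) ?_).symm
    rw [h2]
    norm_num

end TH508.ON
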