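import Pool.Agent.TH508.ON.Paths

set_option autoImplicit false
set_option linter.unusedSimpArgs false

/-! Two-sided bounds for the boundary paths of the O(n) model in wedges. -/

namespace TH508.ON

open H978R2.Hex H978R3.Wedge

theorem val_mono {A B : V → Prop} (h : ∀ v, A v → B v) : ∀ {l : List V}, Val A l → Val B l
  | [], hl => hl
  | [_], hl => hl
  | [_, _], hl => hl
  | z :: y :: x :: t, hl => by
    obtain ⟨h1, h2, h3, h4, h5⟩ := hl
    exact ⟨h1, h2, h y h3, h4, val_mono h h5⟩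

theorem exists_box (S : Finset V) : ∃ N : ℤ, 1 ≤ N ∧ ∀ v ∈ S, Hx N v := by
  obtain ⟨M, hM⟩ := (S.image (fun v : V => |v.1| + |v.2|)).exists_le
  refine ⟨max 1 M, le_max_left _ _, fun v hv => ?_⟩
  have h1 := hM _ (Finset.mem_image_of_mem _ hv)
  have h2 := le_max_right 1 M
  have h3 := le_max_left 1 M
  have a1 := le_abs_self v.1
  have a2 := neg_abs_le v.1
  have a3 := le_abs_self v.2
  have a4 := neg_abs_le v.2
  have a5 := abs_nonneg v.1
  have a6 := abs_nonneg v.2
  unfold Hx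
  generalize max 1 M = N at *
  refine ⟨?_, ?_, ?_, ?_, ?_, ?_⟩ <;> linarith

theorem wq_slit {u w : ℤ} {v : V} (h : Wq u w v) : ¬ Slit v := by
  intro hs
  have := h.1 hs.1
  have := hs.2
  omega

/-- windings of the exits through the sides -/
theorem idx_side {u w : ℤ} (hu : u = 3 ∨ u = 4 ∨ u = 5) (hw : w = 2 ∨ w = 3 ∨ w = 4)
    {S : Finset V} (hS : ∀ v ∈ S, Wq u w v) {l : List V} (hl : l ∈ exits S)
    (hz : ¬ Wq u w (l.headD (0, 0))) : W l = u ∨ W l = -w := by
  obtain ⟨N, hN, hb⟩ := exists_box S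
  have h2 := exits_len hl
  unfold exits at hl
  rw [Finset.mem_filter, mem_AP] at hl
  have hv : Val (Om (qPar u w N)) l :=
    val_mono (fun v hv => (om_q u w N hN v).2 ⟨hS v hv, hb v hv⟩) hl.1
  have hP : l ∈ P (Om (qPar u w N)) (l.length - 2) := mem_P.2 ⟨hv, by omega⟩
  have ho : ¬ Om (qPar u w N) (l.headD (0, 0)) := fun h => hz ((om_q u w N hN _).1 h).1
  exact (idx u w N hu hw hN hP ho).1 hz

/-- the truncated wedge -/
noncomputable def hexW (u w N : ℤ) : Finset V :=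
  (Finset.Icc ((-2 * N, -N) : V) (2 * N, N)).filter (fun v => Wq u w v ∧ Hx N v)

theorem mem_hexW (u w N : ℤ) (v : V) : v ∈ hexW u w N ↔ Wq u w v ∧ Hx N v := by
  unfold hexW
  rw [Finset.mem_filter, Finset.mem_Icc, Prod.le_def, Prod.le_def]
  constructor
  · exact fun h => h.2
  · intro h
    refine ⟨?_, h⟩
    obtain ⟨-, h1, h2, h3, h4, h5, h6⟩ := h
    simp only
    omega

/-- windings of the far exits of the truncated wedge -/
theorem idx_far {u w N : ℤ} (hu : u = 3 ∨ u = 4 ∨ u = 5) (hw : w = 2 ∨ w = 3 ∨ w = 4) (hN : 1 ≤ N)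
    {l : List V} (hl : l ∈ exits (hexW u w N)) (hz : Wq u w (l.headD (0, 0))) :
    2 - w ≤ W l ∧ W l ≤ u - 2 := by
  have h2 := exits_len hl
  unfold exits at hl
  rw [Finset.mem_filter, mem_AP] at hl
  have hv : Val (Om (qPar u w N)) l :=
    val_mono (fun v hv => (om_q u w N hN v).2 ((mem_hexW u w N v).1 hv)) hl.1
  have hP : l ∈ P (Om (qPar u w N)) (l.length - 2) := mem_P.2 ⟨hv, by omega⟩
  have ho : ¬ Om (qPar u w N) (l.headD (0, 0)) := fun h =>
    hl.2 ((mem_hexW u w N _).2 ((om_q u w N hN _).1 h))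
  exact (idx u w N hu hw hN hP ho).2 hz

variable {n x t : ℝ}

/-- total weight of the exits through the sides of the wedge, of the other exits -/
noncomputable def sideM (n x : ℝ) (u w : ℤ) (S : Finset V) : ℝ := mass n x S {v | ¬ Wq u w v}
noncomputable def farM (n x : ℝ) (u w : ℤ) (S : Finset V) : ℝ := mass n x S {v | Wq u w v}

theorem mass_eq {S : Finset V} (h00 : ((0, 0) : V) ∉ S) (Q : V → Prop)
    [DecidablePred Q] : mass n x S {v | Q v} =
      ∑ l ∈ (exits S).filter (fun l => Q (l.headD (0, 0))), wL n x S l := by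
  unfold mass
  have : DecidablePred (· ∈ ({v | Q v} : Set V)) := fun v => inferInstanceAs (Decidable (Q v))
  rw [sum_paths h00 {v | Q v} (wt n x S) (wL n x S) (fun q _ => wt_eq h00 q)]
  refine Finset.sum_congr ?_ (fun _ _ => rfl)
  ext l
  rw [Finset.mem_filter, Finset.mem_filter]
  exact Iff.rfl

theorem zero_notMem {u w : ℤ} {S : Finset V} (hS : ∀ v ∈ S, Wq u w v) : ((0, 0) : V) ∉ S := by
  intro h
  exact wq_slit (hS _ h) ⟨rfl, le_refl _⟩

/-- the common identity -/
theorem split_id (h0 : 0 ≤ n) (hx0 : 0 < x) (hn : n = -2 * Real.cos (4 * t))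
    (hx : x * (2 * Real.cos t) = 1) {u w : ℤ} (hu : u = 3 ∨ u = 4 ∨ u = 5)
    (hw : w = 2 ∨ w = 3 ∨ w = 4) {S : Finset V} (hS : ∀ v ∈ S, Wq u w v) :
    ∑ l ∈ (exits S).filter (fun l => Wq u w (l.headD (0, 0))),
      Real.cos (W l * t + -(t * (u - w) / 2)) * wL n x S l +
      Real.cos (t * (u + w) / 2) * sideM n x u w S = Real.cos (t * (u - w) / 2) := by
  have h := ident_r h0 hx0 hn hx S (fun v hv => wq_slit (hS v hv)) (-(t * (u - w) / 2))
  rw [← Finset.sum_filter_add_sum_filter_not (exits S) (fun l => Wq u w (l.headD (0, 0))),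
    Real.cos_neg] at h
  rw [← h]
  congr 1
  unfold sideM
  rw [mass_eq (zero_notMem hS), Finset.mul_sum]
  refine Finset.sum_congr rfl fun l hl => ?_
  rw [Finset.mem_filter] at hl
  congr 1
  rcases idx_side hu hw hS hl.1 hl.2 with h2 | h2
  · rw [h2]
    congr 1
    ring
  · rw [h2, ← Real.cos_neg]
    congr 1
    push_cast
    ring

/-- lower bound for the far exits of any finite subset of the wedge -/
theorem wide (h0 : 0 ≤ n) (hx0 : 0 < x) (hn : n = -2 * Real.cos (4 * t))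
    (hx : x * (2 * Real.cos t) = 1) {u w : ℤ} (hu : u = 3 ∨ u = 4 ∨ u = 5)
    (hw : w = 2 ∨ w = 3 ∨ w = 4) {S : Finset V} (hS : ∀ v ∈ S, Wq u w v) :
    Real.cos (t * (u - w) / 2) ≤
      farM n x u w S + Real.cos (t * (u + w) / 2) * sideM n x u w S := by
  rw [← split_id h0 hx0 hn hx hu hw hS]
  refine add_le_add_left ?_ _
  unfold farM
  rw [mass_eq (zero_notMem hS)]
  apply Finset.sum_le_sum
  intro l _
  have h2 := wL_nonneg h0 hx0.le S l
  have h3 := Real.cos_le_one (W l * t + -(t * (u - w) / 2))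
  nlinarith

/-- upper bound for the far exits of the truncated wedge -/
theorem narrow (h0 : 0 ≤ n) (hx0 : 0 < x) (hn : n = -2 * Real.cos (4 * t))
    (hx : x * (2 * Real.cos t) = 1) (ht : 0 ≤ t) {u w : ℤ} (hu : u = 3 ∨ u = 4 ∨ u = 5)
    (hw : w = 2 ∨ w = 3 ∨ w = 4) (htp : t * (u + w - 4) / 2 ≤ Real.pi) {N : ℤ} (hN : 1 ≤ N) :
    Real.cos (t * (u + w - 4) / 2) * farM n x u w (hexW u w N) +
      Real.cos (t * (u + w) / 2) * sideM n x u w (hexW u w N) ≤ Real.cos (t * (u - w) / 2) := by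
  have hS : ∀ v ∈ hexW u w N, Wq u w v := fun v hv => ((mem_hexW u w N v).1 hv).1
  rw [← split_id h0 hx0 hn hx hu hw hS]
  refine add_le_add_left ?_ _
  unfold farM
  rw [mass_eq (zero_notMem hS), Finset.mul_sum]
  apply Finset.sum_le_sum
  intro l hl
  rw [Finset.mem_filter] at hl
  refine mul_le_mul_of_nonneg_right ?_ (wL_nonneg h0 hx0.le _ l)
  obtain ⟨h2, h3⟩ := idx_far hu hw hN hl.1 hl.2
  have h2' : (2 - w : ℝ) ≤ W l := by exact_mod_cast h2
  have h3' : (W l : ℝ) ≤ u - 2 := by exact_mod_cast h3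
  rw [← Real.cos_abs (W l * t + -(t * (u - w) / 2))]
  apply Real.cos_le_cos_of_nonneg_of_le_pi (abs_nonneg _) htp
  rw [abs_le]
  constructor <;> nlinarith

end TH508.ON
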