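import Pool.Agent.TH508.ON.Idx

set_option autoImplicit false
set_option linter.unusedSimpArgs false

/-! Paths of a finite domain, their weights, and the identity in real form. -/

namespace TH508.ON

open H978R2.Hex H978R3.Wedge Complex

/-- Paths of the finite set `S` which start in the middle of the edge from `(0,0)` to `(1,0)`:
`q.1 = [v_1, …, v_m]` are the visited vertices (distinct, in `S`), and `q.2 ∉ S` is the vertex at
the other end of the last edge, in whose middle the path stops; the first vertex of
`v_1, …, v_m, q.2` is `(1,0)`. (The path does not come back through the first edge.) -/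
def Paths (S : Finset V) : Set (List V × V) :=
  {q | (q.1 ++ [q.2]).head? = some (1, 0) ∧ q.1.Nodup ∧ (∀ v ∈ q.1, v ∈ S) ∧
    (q.1 ++ [q.2]).IsChain Adj ∧ q.2 ∉ S ∧ (q.1.length = 1 → q.2 ≠ (0, 0))}

/-- number of left turns minus number of right turns -/
def turns : List V → ℤ
  | x :: y :: z :: t => turn x y z + turns (y :: z :: t)
  | _ => 0

/-- winding of a path -/
def wnd (q : List V × V) : ℤ := turns ((0, 0) :: (q.1 ++ [q.2]))

/-- the weight of a path in the O(n) model in `S`, normalised by the partition function of the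
loops in `S` -/
noncomputable def wt (n x : ℝ) (S : Finset V) (q : List V × V) : ℝ :=
  x ^ q.1.length * ZL n x (S \ q.1.toFinset) / ZL n x S

/-- total normalised weight of the paths whose exit vertex is in `Q` -/
noncomputable def mass (n x : ℝ) (S : Finset V) (Q : Set V) : ℝ :=
  ∑ᶠ q ∈ {q | q ∈ Paths S ∧ q.2 ∈ Q}, wt n x S q

theorem turns_rev : ∀ L : List V, turns L = W L.reverse
  | [] => by simp [turns, W]
  | [_] => by simp [turns, W]
  | [_, _] => by simp [turns, W]
  | x :: y :: z :: t => by
    have ih := turns_rev (y :: z :: t)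
    rw [turns, ih]
    have e1 : (x :: y :: z :: t).reverse = t.reverse ++ z :: y :: [x] := by simp
    have e2 : (y :: z :: t).reverse = t.reverse ++ [z, y] := by simp
    rw [e1, e2, W_append t.reverse z y [x]]
    simp only [W]
    ring

/-- the reversed list of a path -/
def tl (q : List V × V) : List V := q.2 :: (q.1.reverse ++ [(0, 0)])

theorem wnd_eq (q : List V × V) : wnd q = W (tl q) := by
  unfold wnd tl
  rw [turns_rev]
  congr 1
  simp

theorem tl_inj : Function.Injective tl := by
  rintro ⟨p, z⟩ ⟨p', z'⟩ h
  unfold tl at h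
  simp only [List.cons.injEq, List.append_cancel_right_eq, List.reverse_inj] at h
  exact Prod.ext h.2 h.1

theorem mem_exits {S : Finset V} {z : V} {t : List V} :
    z :: t ∈ exits S ↔ Good (fun v => v ∈ S) z t ∧ z ∉ S := by
  unfold exits
  rw [Finset.mem_filter, mem_AP, val_iff]
  simp only [List.headD_cons]

theorem tl_mem {S : Finset V} {q : List V × V} (h : q ∈ Paths S) (h00 : ((0, 0) : V) ∉ S) :
    tl q ∈ exits S := by
  obtain ⟨p, z⟩ := q
  obtain ⟨h1, h2, h3, h4, h5, h6⟩ := h
  simp only at h1 h2 h3 h4 h5 h6
  match p, h1, h2, h3, h4, h6 with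
  | [], h1, h2, h3, h4, h6 =>
    simp only [List.nil_append, List.head?_cons, Option.some.injEq] at h1
    subst h1
    unfold tl
    simp only [List.reverse_nil, List.nil_append]
    rw [mem_exits, ← val_iff]
    exact ⟨⟨rfl, rfl⟩, h5⟩
  | v :: p', h1, h2, h3, h4, h6 =>
    simp only [List.cons_append, List.head?_cons, Option.some.injEq] at h1
    subst h1
    unfold tl
    simp only
    rw [mem_exits]
    refine ⟨⟨?_, ?_, ?_, ?_, ?_⟩, h5⟩
    · refine ⟨z :: p'.reverse, ?_⟩
      simp
    · have e : z :: ((((1, 0) : V) :: p').reverse ++ [(0, 0)]) =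
          (((0, 0) : V) :: ((((1, 0) : V) :: p') ++ [z])).reverse := by simp
      rw [e, List.isChain_reverse]
      have e2 : ((0, 0) : V) :: ((((1, 0) : V) :: p') ++ [z]) =
        (0, 0) :: (1, 0) :: (p' ++ [z]) := rfl
      rw [e2, List.isChain_cons_cons]
      exact ⟨adj_10, h4⟩
    · rw [List.nodup_append]
      refine ⟨List.nodup_reverse.2 h2, by simp, ?_⟩
      intro a ha b hb hab
      rw [List.mem_singleton] at hb
      rw [List.mem_reverse] at ha
      apply h00
      rw [← hb, ← hab]
      exact h3 a ha
    · intro v hv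
      rw [List.dropLast_append_of_ne_nil (by simp)] at hv
      simp only [List.dropLast_singleton, List.append_nil] at hv
      exact h3 v (List.mem_reverse.1 hv)
    · intro y x r h7 h8
      rcases List.eq_nil_or_concat p' with h9 | ⟨s, a, h9⟩
      · subst h9
        simp only [List.reverse_cons, List.reverse_nil, List.nil_append, List.cons_append,
          List.cons.injEq] at h7
        apply h6 (by simp)
        rw [h8, ← h7.2.1]
      · subst h9
        have h10 : x ∈ S := by
          have e : ((((1, 0) : V) :: s.concat a).reverse ++ [(0, 0)]) =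
              a :: ((((1, 0) : V) :: s).reverse ++ [(0, 0)]) := by simp
          rw [e] at h7
          simp only [List.cons.injEq] at h7
          have h11 := h7.2
          rcases List.eq_nil_or_concat s with h12 | ⟨s', b, h12⟩
          · subst h12
            simp only [List.reverse_cons, List.reverse_nil, List.nil_append, List.cons_append,
              List.cons.injEq] at h11
            rw [← h11.1]
            exact h3 _ List.mem_cons_self
          · subst h12
            have e2 : ((((1, 0) : V) :: s'.concat b).reverse ++ [((0, 0) : V)]) =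
              b :: ((((1, 0) : V) :: s').reverse ++ [(0, 0)]) := by simp
            rw [e2] at h11
            simp only [List.cons.injEq] at h11
            rw [← h11.1]
            apply h3
            simp
        exact h5 (h8 ▸ h10)

theorem exists_tl {S : Finset V} {l : List V} (hl : l ∈ exits S) :
    ∃ q ∈ Paths S, tl q = l := by
  match l, hl with
  | [], hl =>
    unfold exits at hl
    rw [Finset.mem_filter, mem_AP] at hl
    exact hl.1.elim
  | z :: t, hl =>
    obtain ⟨hg, hz⟩ := mem_exits.1 hl
    have hlast := hg.last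
    rcases List.eq_nil_or_concat t with h | ⟨s, a, h⟩
    · rw [h] at hlast; simp at hlast
    · rw [List.concat_eq_append] at h
      subst h
      have ha : a = (0, 0) := by simpa using hlast
      subst ha
      rcases List.eq_nil_or_concat s with hs | ⟨s', b, hs'⟩
      · subst hs
        have := hg.suff
        have h2 := this.eq_of_length (by simp)
        simp only [List.nil_append, List.cons.injEq, and_true] at h2
        subst h2
        refine ⟨([], (1, 0)), ⟨by simp, by simp, by simp, by simp, hz, by simp⟩, ?_⟩
        unfold tl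
        simp
      · rw [List.concat_eq_append] at hs'
        subst hs'
        have hb : b = (1, 0) := by
          have h3 := hg.suff
          have h4 : [b, ((0, 0) : V)] <:+ z :: (s' ++ [b] ++ [(0, 0)]) := ⟨z :: s', by simp⟩
          have h5 := List.suffix_of_suffix_length_le h3 h4 (by simp)
          have h6 := h5.eq_of_length (by simp)
          simp only [List.cons.injEq, and_true] at h6
          exact h6.symm
        subst hb
        refine ⟨((s' ++ [(1, 0)]).reverse, z), ⟨?_, ?_, ?_, ?_, hz, ?_⟩, ?_⟩
        · simp
        · rw [List.nodup_reverse]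
          have := hg.nodup
          rw [List.nodup_append] at this
          exact this.1
        · intro v hv
          rw [List.mem_reverse] at hv
          apply hg.om
          rw [List.dropLast_append_of_ne_nil (by simp)]
          simp only [List.dropLast_singleton, List.append_nil]
          exact hv
        · have h7 := hg.chain
          have e : z :: (s' ++ [((1, 0) : V)] ++ [(0, 0)]) =
              (((0, 0) : V) :: ((s' ++ [(1, 0)]).reverse ++ [z])).reverse := by simp
          rw [e, List.isChain_reverse] at h7
          exact List.IsChain.tail h7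
        · intro h8 h9
          have hs0 : s' = [] := by
            simp only [List.length_reverse, List.length_append, List.length_cons,
              List.length_nil] at h8
            exact List.eq_nil_of_length_eq_zero (by omega)
          subst hs0
          exact hg.nb (1, 0) (0, 0) [] rfl h9
        · unfold tl
          simp

theorem sum_paths {M : Type*} [AddCommMonoid M] {S : Finset V} (h00 : ((0, 0) : V) ∉ S) (Q : Set V) [DecidablePred (· ∈ Q)] (f : List V × V → M)
    (g : List V → M) (hfg : ∀ q ∈ Paths S, f q = g (tl q)) :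
    ∑ᶠ q ∈ {q | q ∈ Paths S ∧ q.2 ∈ Q}, f q =
      ∑ l ∈ (exits S).filter (fun l => l.headD (0, 0) ∈ Q), g l := by
  rw [← finsum_mem_coe_finset]
  apply finsum_mem_eq_of_bijOn tl
  · refine ⟨?_, tl_inj.injOn, ?_⟩
    · rintro q ⟨h2, h3⟩
      rw [Finset.mem_coe, Finset.mem_filter]
      exact ⟨tl_mem h2 h00, h3⟩
    · intro l hl
      rw [Finset.mem_coe, Finset.mem_filter] at hl
      obtain ⟨q, hq, rfl⟩ := exists_tl hl.1
      exact ⟨q, ⟨hq, hl.2⟩, rfl⟩
  · rintro q ⟨h2, _⟩
    exact hfg q h2

/-- weight of the reversed list -/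
noncomputable def wL (n x : ℝ) (S : Finset V) (l : List V) : ℝ :=
  x ^ (l.length - 2) * ZL n x (S \ l.tail.toFinset) / ZL n x S

theorem wt_eq {n x : ℝ} {S : Finset V} (h00 : ((0, 0) : V) ∉ S) (q : List V × V) :
    wt n x S q = wL n x S (tl q) := by
  unfold wt wL tl
  have e1 : (q.2 :: (q.1.reverse ++ [((0, 0) : V)])).length - 2 = q.1.length := by simp
  have e2 : S \ (q.2 :: (q.1.reverse ++ [((0, 0) : V)])).tail.toFinset = S \ q.1.toFinset := by
    ext v
    simp only [List.tail_cons, Finset.mem_sdiff, List.mem_toFinset, List.mem_append,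
      List.mem_reverse, List.mem_singleton]
    constructor
    · rintro ⟨a, b⟩
      exact ⟨a, fun h => b (Or.inl h)⟩
    · rintro ⟨a, b⟩
      refine ⟨a, ?_⟩
      rintro (h | h)
      · exact b h
      · rw [h] at a
        exact h00 a
  rw [e1, e2]

theorem wL_nonneg {n x : ℝ} (hn : 0 ≤ n) (hx : 0 ≤ x) (S : Finset V) (l : List V) :
    0 ≤ wL n x S l := by
  unfold wL
  have h1 := ZL_pos hn hx S
  have h2 := ZL_pos hn hx (S \ l.tail.toFinset)
  have h3 : 0 ≤ x ^ (l.length - 2) := pow_nonneg hx _
  exact div_nonneg (mul_nonneg h3 (by linarith)) (by linarith)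

theorem exits_len {S : Finset V} {l : List V} (hl : l ∈ exits S) : 2 ≤ l.length := by
  unfold exits at hl
  rw [Finset.mem_filter, mem_AP] at hl
  match l, hl.1 with
  | [], h => exact h.elim
  | [_], h => exact h.elim
  | _ :: _ :: _, _ => simp

/-- complex identity, normalised -/
theorem ident_c {n x t : ℝ} (h0 : 0 ≤ n) (hx0 : 0 < x) (hn : n = -2 * Real.cos (4 * t))
    (hx : x * (2 * Real.cos t) = 1) (S : Finset V) (hS : ∀ v ∈ S, ¬ Slit v) :
    ∑ l ∈ exits S, (wL n x S l : ℂ) * ph t l = 1 := by
  have h := ident_on n x t hn hx S hS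
  have hZ := ZL_pos h0 hx0.le S
  have hc : ((x ^ 2 * ZL n x S : ℝ) : ℂ) ≠ 0 := by
    rw [Complex.ofReal_ne_zero]
    positivity
  have e : ∀ l ∈ exits S, (wL n x S l : ℂ) * ph t l = F n x t S l / ((x ^ 2 * ZL n x S : ℝ) : ℂ) := by
    intro l hl
    have h2 := exits_len hl
    have h3 : x ^ l.length = x ^ (l.length - 2) * x ^ 2 := by
      rw [← pow_add]
      congr 1
      omega
    have h4 : wL n x S l = (x ^ l.length * ZL n x (S \ l.tail.toFinset)) / (x ^ 2 * ZL n x S) := by
      unfold wL
      rw [h3]
      have : ZL n x S ≠ 0 := by positivity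
      field_simp
    unfold F
    rw [h4, Complex.ofReal_div]
    ring
  rw [Finset.sum_congr rfl e, ← Finset.sum_div, h, div_self hc]

/-- real identity with a phase -/
theorem ident_r {n x t : ℝ} (h0 : 0 ≤ n) (hx0 : 0 < x) (hn : n = -2 * Real.cos (4 * t))
    (hx : x * (2 * Real.cos t) = 1) (S : Finset V) (hS : ∀ v ∈ S, ¬ Slit v) (φ : ℝ) :
    ∑ l ∈ exits S, Real.cos (W l * t + φ) * wL n x S l = Real.cos φ := by
  have h1 : exp ((φ : ℂ) * I) * ∑ l ∈ exits S, (wL n x S l : ℂ) * ph t l = exp ((φ : ℂ) * I) := by
    rw [ident_c h0 hx0 hn hx S hS, mul_one]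
  rw [Finset.mul_sum] at h1
  have h2 := congrArg Complex.re h1
  rw [Complex.re_sum, Complex.exp_ofReal_mul_I_re] at h2
  rw [← h2]
  refine Finset.sum_congr rfl fun l _ => ?_
  unfold ph
  have e : exp ((φ : ℂ) * I) * ((wL n x S l : ℂ) * exp ((W l : ℂ) * (t : ℂ) * I)) =
      (wL n x S l : ℂ) * exp (((W l * t + φ : ℝ) : ℂ) * I) := by
    have : (((W l * t + φ : ℝ) : ℂ) * I) = (φ : ℂ) * I + (W l : ℂ) * (t : ℂ) * I := by
      push_cast; ring
    rw [this, Complex.exp_add]
    ring
  rw [e, Complex.re_ofReal_mul, Complex.exp_ofReal_mul_I_re]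
  ring

end TH508.ON
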